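import Mathlib
import Pool.Agent.W487.WeilAlg

set_option linter.unusedSimpArgs false
set_option linter.unusedSectionVars false

noncomputable section

namespace Pool.Agent.W487.G

open QuadraticAlgebra

/-- `F[i]` is etale over `F` when two is invertible. -/
theorem QA_etale (F : Type) [Field F] [CharZero F] : Algebra.Etale F (QA F) := by
  have h1 : Algebra.FinitePresentation F (QA F) :=
    Algebra.FinitePresentation.of_finiteType.1 inferInstance
  have h2 : Algebra.FormallyEtale F (QA F) := by
    rw [Algebra.FormallyEtale.iff_comp_bijective]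
    intro B _ _ I hI
    let π : B →ₐ[F] B ⧸ I := Ideal.Quotient.mkₐ F I
    have hπ : Function.Surjective π := Ideal.Quotient.mkₐ_surjective F I
    have h0 : ∀ a ∈ I, ∀ b ∈ I, a * b = 0 := by
      intro a ha b hb
      have : a * b ∈ I ^ 2 := by rw [pow_two]; exact Ideal.mul_mem_mul ha hb
      rw [hI] at this
      exact this
    have hw : ∀ {A : Type} [CommRing A] [Algebra F A] (f : QA F →ₐ[F] A), f ω * f ω = -1 := by
      intro A _ _ f
      rw [← map_mul, omega_mul_omega_eq_add]
      simp
    have h12 : algebraMap F B (1 / 2) * 2 = 1 := by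
      have h3 : algebraMap F B 2 = 2 := map_ofNat _ 2
      rw [← h3, ← map_mul]
      norm_num
    constructor
    · intro f g hfg
      apply QuadraticAlgebra.algHom_ext
      have h3 : π (f ω) = π (g ω) := congr($hfg ω)
      have h4 : g ω - f ω ∈ I := Ideal.Quotient.eq_zero_iff_mem.1 (by
        change π (g ω - f ω) = 0
        rw [map_sub, h3, sub_self])
      have h5 := h0 _ h4 _ h4
      have h6 := hw f
      have h7 := hw g
      have h8 : (g ω - f ω) = 0 := by
        linear_combination (-(algebraMap F B (1/2)) * f ω) * (h7 - h6 - h5) -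
          (algebraMap F B (1/2) * 2 * (g ω - f ω)) * (-h6) -
          (g ω - f ω) * h12
      exact (sub_eq_zero.1 h8).symm
    · intro f
      obtain ⟨v, hv⟩ := hπ (f ω)
      let e := v * v + 1
      have he : e ∈ I := Ideal.Quotient.eq_zero_iff_mem.1 (by
        change π (v * v + 1) = 0
        rw [map_add, map_mul, hv, hw f]
        simp)
      let c := algebraMap F B (1 / 2)
      let u := v * (1 + c * e)
      have hu : u * u = -1 := by
        have h5 := h0 _ he _ he
        have h6 : v * v = e - 1 := by simp [e]
        simp only [u]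
        linear_combination (1 + c * e) ^ 2 * h6 + (2 * c + c ^ 2 * e - c ^ 2) * h5 - e * h12
      refine ⟨QuadraticAlgebra.lift ⟨u, by rw [hu]; simp⟩, ?_⟩
      apply QuadraticAlgebra.algHom_ext
      change π (QuadraticAlgebra.lift ⟨u, _⟩ ω) = f ω
      rw [QuadraticAlgebra.lift_apply_apply]
      have h7 : π e = 0 := Ideal.Quotient.eq_zero_iff_mem.2 he
      simp only [omega_re, omega_im, zero_smul, one_smul, zero_add, u, map_mul, map_add, h7, hv,
        mul_zero, add_zero, map_one, mul_one]
  exact {}

end Pool.Agent.W487.G
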