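import Mathlib
import Pool.Agent.W487.Etl
import Pool.Agent.W487.G.QEt

open CategoryTheory Limits Opposite Abelian AlgebraicGeometry

set_option backward.isDefEq.respectTransparency false
set_option linter.unusedSimpArgs false
set_option linter.unusedSectionVars false

noncomputable section

namespace Pool.Agent.W487.G

variable {F : Type} [Field F]

/-- `Spec F` -/
abbrev SF (F : Type) [Field F] : Scheme.{0} := Spec (.of F)
/-- `Spec F[i]` -/
abbrev SI (F : Type) [Field F] : Scheme.{0} := Spec (.of (QA F))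

/-- `Spec F[i] → Spec F` -/
def cc : SI F ⟶ SF F := Spec.map (CommRingCat.ofHom (algebraMap F (QA F)))
/-- the conjugation -/
def cj : SI F ⟶ SI F := Spec.map (CommRingCat.ofHom (starRingEnd (QA F)))

@[reassoc (attr := simp)]
lemma cj_cc : cj ≫ cc (F := F) = cc := by
  rw [cj, cc, ← Spec.map_comp]
  congr 1
  ext1
  apply RingHom.ext
  intro x
  change star (algebraMap F (QA F) x) = algebraMap F (QA F) x
  apply QuadraticAlgebra.ext <;> simp

@[reassoc (attr := simp)]
lemma cj_cj : cj ≫ cj (F := F) = 𝟙 _ := by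
  rw [cj, ← Spec.map_comp, ← Spec.map_id]
  congr 1
  ext1
  apply RingHom.ext
  intro x
  exact star_star x

instance [CharZero F] : Etale (cc (F := F)) := by
  rw [cc, HasRingHomProperty.Spec_iff (P := @Etale)]
  change (algebraMap F (QA F)).Etale
  rw [RingHom.etale_algebraMap]
  exact QA_etale F

/-- the conjugation on `X ×_F F[i]` -/
def sgL {X : Scheme.{0}} (h : X ⟶ SF F) : pullback h cc ⟶ pullback h cc :=
  pullback.lift (pullback.fst h cc) (pullback.snd h cc ≫ cj) (by simp [pullback.condition])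

@[reassoc (attr := simp)]
lemma sgL_fst {X : Scheme.{0}} (h : X ⟶ SF F) : sgL h ≫ pullback.fst h cc = pullback.fst h cc := by
  simp [sgL]

@[reassoc (attr := simp)]
lemma sgL_snd {X : Scheme.{0}} (h : X ⟶ SF F) :
    sgL h ≫ pullback.snd h cc = pullback.snd h cc ≫ cj := by
  simp [sgL]

/-- the section of `X ×_F F[i] → X` given by `a : X → Spec F[i]`. -/
def seL {X : Scheme.{0}} (a : X ⟶ SI F) (h : X ⟶ SF F) (ha : a ≫ cc = h) : X ⟶ pullback h cc :=
  pullback.lift (𝟙 X) a (by simp [ha])

@[reassoc (attr := simp)]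
lemma seL_fst {X : Scheme.{0}} (a : X ⟶ SI F) (h : X ⟶ SF F) (ha : a ≫ cc = h) :
    seL a h ha ≫ pullback.fst h cc = 𝟙 X := by
  simp [seL]

@[reassoc (attr := simp)]
lemma seL_snd {X : Scheme.{0}} (a : X ⟶ SI F) (h : X ⟶ SF F) (ha : a ≫ cc = h) :
    seL a h ha ≫ pullback.snd h cc = a := by
  simp [seL]

abbrev DR (F : Type) [Field F] := Over (SF F)

/-- `T ↦ T ×_F F[i]` -/
def TC : DR F ⥤ DR F := Over.pullback cc ⋙ Over.map cc

lemma TC_map_left {T T' : DR F} (f : T ⟶ T') : (TC.map f).left =
    pullback.lift (pullback.fst T.hom cc ≫ f.left) (pullback.snd T.hom cc)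
      (by simp [pullback.condition]) := rfl

/-- the projection `T ×_F F[i] → T` -/
def prT (T : DR F) : TC.obj T ⟶ T :=
  Over.homMk (pullback.fst T.hom cc) (pullback.condition (f := T.hom) (g := cc))

/-- the conjugation on `T ×_F F[i]` -/
def sgT (T : DR F) : TC.obj T ⟶ TC.obj T :=
  Over.homMk (sgL T.hom) ((sgL_snd_assoc T.hom cc).trans (by rw [cj_cc]; rfl))

/-- the section of `T ×_F F[i] → T` given by a structure of `F[i]`-scheme on `T` -/
def seT (T : DR F) (a : T.left ⟶ SI F) (ha : a ≫ cc = T.hom) : T ⟶ TC.obj T :=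
  Over.homMk (seL a T.hom ha) ((seL_snd_assoc a T.hom ha cc).trans ha)

@[simp] lemma prT_left (T : DR F) : (prT T).left = pullback.fst T.hom cc := rfl
@[simp] lemma sgT_left (T : DR F) : (sgT T).left = sgL T.hom := rfl
@[simp] lemma seT_left (T : DR F) (a : T.left ⟶ SI F) (ha : a ≫ cc = T.hom) :
    (seT T a ha).left = seL a T.hom ha := rfl

/-- two morphisms to `T ×_F F[i]` agree as soon as their components agree -/
lemma TC_hom_ext {T U : DR F} {f g : U ⟶ TC.obj T}
    (h1 : f.left ≫ pullback.fst T.hom cc = g.left ≫ pullback.fst T.hom cc)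
    (h2 : f.left ≫ pullback.snd T.hom cc = g.left ≫ pullback.snd T.hom cc) : f = g := by
  apply Over.OverMorphism.ext
  exact pullback.hom_ext h1 h2

@[reassoc (attr := simp)]
lemma seT_prT (T : DR F) (a : T.left ⟶ SI F) (ha : a ≫ cc = T.hom) : seT T a ha ≫ prT T = 𝟙 T := by
  apply Over.OverMorphism.ext
  exact seL_fst a T.hom ha

@[reassoc (attr := simp)]
lemma sgT_prT (T : DR F) : sgT T ≫ prT T = prT T := by
  apply Over.OverMorphism.ext
  exact sgL_fst T.hom

lemma conj_hom {T : DR F} {a : T.left ⟶ SI F} (ha : a ≫ cc = T.hom) : (a ≫ cj) ≫ cc = T.hom := by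
  simpa using ha

lemma seT_sgT (T : DR F) (a : T.left ⟶ SI F) (ha : a ≫ cc = T.hom) :
    seT T a ha ≫ sgT T = seT T (a ≫ cj) (conj_hom ha) := by
  apply TC_hom_ext
  · simp only [Over.comp_left, seT_left, sgT_left, Category.assoc, sgL_fst, seL_fst]
  · simp only [Over.comp_left, seT_left, sgT_left, Category.assoc, sgL_snd, seL_snd,
      seL_snd_assoc]

@[reassoc (attr := simp)]
lemma sgT_sgT (T : DR F) : sgT T ≫ sgT T = 𝟙 _ := by
  apply TC_hom_ext
  · simp only [Over.comp_left, sgT_left, Category.assoc, sgL_fst]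
    exact (Category.id_comp _).symm
  · simp only [Over.comp_left, sgT_left, Category.assoc, sgL_snd, sgL_snd_assoc, cj_cj]
    exact (Category.comp_id _).trans (Category.id_comp _).symm

@[reassoc]
lemma prT_naturality {T T' : DR F} (f : T ⟶ T') : TC.map f ≫ prT T' = prT T ≫ f := by
  apply Over.OverMorphism.ext
  simp only [Over.comp_left, prT_left, TC_map_left, pullback.lift_fst]

@[reassoc]
lemma sgT_naturality {T T' : DR F} (f : T ⟶ T') : TC.map f ≫ sgT T' = sgT T ≫ TC.map f := by
  apply TC_hom_ext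
  · simp only [Over.comp_left, sgT_left, Category.assoc, sgL_fst, TC_map_left, pullback.lift_fst,
      sgL_fst_assoc]
  · simp only [Over.comp_left, sgT_left, Category.assoc, sgL_snd, TC_map_left, pullback.lift_snd,
      pullback.lift_snd_assoc]

end Pool.Agent.W487.G
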