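import Mathlib
import Pool.Agent.W487.G.Dbl

open CategoryTheory Limits Opposite Abelian AlgebraicGeometry

set_option backward.isDefEq.respectTransparency false
set_option linter.unusedSimpArgs false
set_option linter.unusedSectionVars false

noncomputable section

namespace Pool.Agent.W487.G

variable {F : Type} [Field F] [CharZero F]

section Gluing

variable {S : Scheme.{0}}

lemma isSheaf_forget (A : Sh S) :
    Presieve.IsSheaf (Scheme.etaleTopology.over S) (A.obj ⋙ forget AddCommGrpCat.{1}) :=
  (isSheaf_iff_isSheaf_of_type _ _).1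
    ((Presheaf.isSheaf_iff_isSheaf_forget _ A.obj (forget _)).1 A.property)

lemma ext_sieve (A : Sh S) {T : Over S} {R : Sieve T}
    (hR : R ∈ (Scheme.etaleTopology.over S) T) {s t : A.obj.obj (op T)}
    (h : ∀ (T' : Over S) (f : T' ⟶ T), R f → A.obj.map f.op s = A.obj.map f.op t) : s = t :=
  ((isSheaf_forget A).isSeparated _ hR).ext (fun _ f hf => h _ f hf)

lemma glue_arrows (A : Sh S) {T : Over S} {ι : Type} (X : ι → Over S) (f : ∀ i, X i ⟶ T)
    (h : Sieve.ofArrows X f ∈ (Scheme.etaleTopology.over S) T)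
    (x : ∀ i, A.obj.obj (op (X i)))
    (hx : ∀ (i j : ι) (Z : Over S) (p : Z ⟶ X i) (q : Z ⟶ X j), p ≫ f i = q ≫ f j →
      A.obj.map p.op (x i) = A.obj.map q.op (x j)) :
    ∃ t : A.obj.obj (op T), ∀ i, A.obj.map (f i).op t = x i := by
  have h1 : Presieve.IsSheafFor (A.obj ⋙ forget AddCommGrpCat.{1}) (Presieve.ofArrows X f) := by
    rw [Presieve.isSheafFor_iff_generate]
    exact isSheaf_forget A _ h
  obtain ⟨t, ht, -⟩ := (Presieve.isSheafFor_arrows_iff _ _).1 h1 x hx
  exact ⟨t, ht⟩

lemma ext_arrows (A : Sh S) {T : Over S} {ι : Type} (X : ι → Over S) (f : ∀ i, X i ⟶ T)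
    (h : Sieve.ofArrows X f ∈ (Scheme.etaleTopology.over S) T) {s t : A.obj.obj (op T)}
    (hst : ∀ i, A.obj.map (f i).op s = A.obj.map (f i).op t) : s = t := by
  refine ext_sieve A h ?_
  rintro T' g ⟨Y, u, v, ⟨i⟩, rfl⟩
  have := congrArg (A.obj.map u.op) (hst i)
  simpa using this

end Gluing

omit [CharZero F] in
/-- two `F`-morphisms from the spectrum of a field to `Spec F[i]` agree up to conjugation -/
lemma eq_or_conj {K : Type} [Field K] (u v : Spec (.of K) ⟶ SI F) (h : u ≫ cc = v ≫ cc) :
    v = u ∨ v = u ≫ cj := by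
  obtain ⟨φ, rfl⟩ : ∃ φ : QA F →+* K, Spec.map (CommRingCat.ofHom φ) = u :=
    ⟨(Spec.preimage u).hom, by simp⟩
  obtain ⟨ψ, rfl⟩ : ∃ ψ : QA F →+* K, Spec.map (CommRingCat.ofHom ψ) = v :=
    ⟨(Spec.preimage v).hom, by simp⟩
  rw [cc, ← Spec.map_comp, ← Spec.map_comp, Spec.map_inj] at h
  have h' : ∀ r : F, φ (algebraMap F (QA F) r) = ψ (algebraMap F (QA F) r) := fun r => by
    simpa using congr(($h).hom r)
  have ho : (QuadraticAlgebra.omega : QA F) * QuadraticAlgebra.omega = -1 := by
    rw [QuadraticAlgebra.omega_mul_omega_eq_add]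
    simp
  have hI : (ψ .omega - φ .omega) * (ψ .omega + φ .omega) = 0 := by
    have h1 : ψ .omega * ψ .omega = -1 := by rw [← map_mul, ho]; simp
    have h2 : φ .omega * φ .omega = -1 := by rw [← map_mul, ho]; simp
    linear_combination h1 - h2
  have hz : ∀ z : QA F, z = algebraMap F (QA F) z.re + algebraMap F (QA F) z.im * .omega := by
    intro z
    apply QuadraticAlgebra.ext <;> simp
  have hz' : ∀ z : QA F, star z = algebraMap F (QA F) z.re - algebraMap F (QA F) z.im * .omega := by
    intro z
    apply QuadraticAlgebra.ext <;> simp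
  rcases mul_eq_zero.1 hI with h3 | h3
  · left
    rw [Spec.map_inj]
    ext1
    apply RingHom.ext
    intro z
    change ψ z = φ z
    rw [hz z]
    simp only [map_add, map_mul, h', sub_eq_zero.1 h3]
  · right
    rw [cj, ← Spec.map_comp, Spec.map_inj]
    ext1
    apply RingHom.ext
    intro z
    have h4 : ψ .omega = - φ .omega := by linear_combination h3
    change ψ z = φ (star z)
    rw [hz' z]
    conv_lhs => rw [hz z]
    rw [map_add, map_mul, map_sub, map_mul, h4, h', h']
    ring

instance {X : Scheme.{0}} (a : X ⟶ SI F) (h : X ⟶ SF F) (ha : a ≫ cc = h) : Etale (seL a h ha) := by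
  have : Etale (seL a h ha ≫ pullback.fst h cc) := by
    rw [seL_fst]
    infer_instance
  exact Etale.of_comp _ (pullback.fst h cc)

lemma isEmpty_of_conj {Z : Scheme.{0}} (b : Z ⟶ SI F) (hb : b = b ≫ cj) : IsEmpty Z := by
  refine ⟨fun z => ?_⟩
  let u := Z.fromSpecResidueField z ≫ b
  have hu : u = u ≫ cj := by
    simp only [u, Category.assoc]
    rw [← hb]
  obtain ⟨φ, hφ⟩ : ∃ φ : QA F →+* Z.residueField z, Spec.map (CommRingCat.ofHom φ) = u :=
    ⟨(Spec.preimage u).hom, by simp⟩
  rw [← hφ, cj, ← Spec.map_comp, Spec.map_inj] at hu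
  have ho : (QuadraticAlgebra.omega : QA F) * QuadraticAlgebra.omega = -1 := by
    rw [QuadraticAlgebra.omega_mul_omega_eq_add]
    simp
  have hs : star (QuadraticAlgebra.omega : QA F) = - QuadraticAlgebra.omega := by
    apply QuadraticAlgebra.ext <;> simp
  have h1 : φ .omega = - φ .omega := by
    have h := congr(($hu).hom QuadraticAlgebra.omega)
    have h' : φ .omega = φ (star .omega) := h
    rw [hs, map_neg] at h'
    exact h'
  have h2 : φ .omega * φ .omega = -1 := by rw [← map_mul, ho]; simp
  have h3 : (2 : Z.residueField z) = 0 := by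
    have h4 : (2 : Z.residueField z) * φ .omega = 0 := by linear_combination h1
    rcases mul_eq_zero.1 h4 with h5 | h5
    · exact h5
    · rw [h5] at h2
      simp at h2
  have h4 : (φ.comp (algebraMap F (QA F))) 2 = 0 := by rw [map_ofNat, h3]
  have h5 : (2 : F) = 0 := by
    apply (φ.comp (algebraMap F (QA F))).injective
    rw [h4, map_zero]
  norm_num at h5

lemma seL_surj {X : Scheme.{0}} (a : X ⟶ SI F) (h : X ⟶ SF F) (ha : a ≫ cc = h)
    (ha' : (a ≫ cj) ≫ cc = h) (x : ↥(pullback h cc)) :
    x ∈ Set.range (seL a h ha) ∨ x ∈ Set.range (seL (a ≫ cj) h ha') := by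
  let q := (pullback h cc).fromSpecResidueField x
  have h1 := eq_or_conj (K := (pullback h cc).residueField x) (q ≫ pullback.fst h cc ≫ a)
    (q ≫ pullback.snd h cc) (by
      simp only [Category.assoc, ha, pullback.condition])
  have hx : x ∈ Set.range q := by
    simp [q]
  obtain ⟨y, hy⟩ := hx
  rcases h1 with h1 | h1
  · left
    have : q = (q ≫ pullback.fst h cc) ≫ seL a h ha := by
      apply pullback.hom_ext
      · simp
      · simp [h1]
    rw [this] at hy
    exact ⟨(q ≫ pullback.fst h cc) y, (Scheme.Hom.comp_apply _ _ _).symm.trans hy⟩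
  · right
    have : q = (q ≫ pullback.fst h cc) ≫ seL (a ≫ cj) h ha' := by
      apply pullback.hom_ext
      · simp
      · simp [h1]
    rw [this] at hy
    exact ⟨(q ≫ pullback.fst h cc) y, (Scheme.Hom.comp_apply _ _ _).symm.trans hy⟩


lemma pair_mem (T : DR F) (a : T.left ⟶ SI F) (ha : a ≫ cc = T.hom) :
    Sieve.ofArrows (fun _ : Bool => T)
      (fun i : Bool => (if i then seT T a ha else seT T (a ≫ cj) (conj_hom ha) :
        T ⟶ TC.obj T)) ∈ (Scheme.etaleTopology.over (SF F)) (TC.obj T) := by
  apply ofArrows_mem_over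
  · intro i
    cases i
    · simp only [Bool.false_eq_true, if_false, seT_left]
      infer_instance
    · simp only [if_true, seT_left]
      infer_instance
  · intro x
    rcases seL_surj a T.hom ha (conj_hom ha) x with h | h
    · exact ⟨true, h⟩
    · exact ⟨false, h⟩

lemma pair_ext (A : Sh (SF F)) (T : DR F) (a : T.left ⟶ SI F) (ha : a ≫ cc = T.hom)
    {x y : A.obj.obj (op (TC.obj T))}
    (h1 : A.obj.map (seT T a ha).op x = A.obj.map (seT T a ha).op y)
    (h2 : A.obj.map (seT T (a ≫ cj) (conj_hom ha)).op x =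
      A.obj.map (seT T (a ≫ cj) (conj_hom ha)).op y) : x = y := by
  apply ext_arrows A _ _ (pair_mem T a ha)
  intro i
  cases i
  · simpa using h2
  · simpa using h1

lemma pair_glue (A : Sh (SF F)) (T : DR F) (a : T.left ⟶ SI F) (ha : a ≫ cc = T.hom)
    (x y : A.obj.obj (op T)) :
    ∃ z : A.obj.obj (op (TC.obj T)), A.obj.map (seT T a ha).op z = x ∧
      A.obj.map (seT T (a ≫ cj) (conj_hom ha)).op z = y := by
  have key : ∀ (Z : DR F) (p q : Z ⟶ T),
      p ≫ seT T a ha = q ≫ seT T (a ≫ cj) (conj_hom ha) → IsEmpty Z.left := by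
    intro Z p q h
    have h1 : p = q := by
      have := congrArg (· ≫ prT T) h
      simpa using this
    subst h1
    apply isEmpty_of_conj (p.left ≫ a)
    have h2 := congrArg (fun f => f.left ≫ pullback.snd T.hom cc) h
    simpa using h2
  obtain ⟨z, hz⟩ := glue_arrows A _ _ (pair_mem T a ha)
    (fun i => if i then x else y) (by
      rintro i j Z p q h
      cases i <;> cases j
      · have : p = q := by
          have := congrArg (· ≫ prT T) h
          simpa using this
        rw [this]
      · simp only [Bool.false_eq_true, if_false, if_true] at h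
        have := key Z q p h.symm
        have := subsingleton_of_isEmpty A Z
        exact Subsingleton.elim _ _
      · simp only [Bool.false_eq_true, if_false, if_true] at h
        have := key Z p q h
        have := subsingleton_of_isEmpty A Z
        exact Subsingleton.elim _ _
      · have : p = q := by
          have := congrArg (· ≫ prT T) h
          simpa using this
        rw [this])
  exact ⟨z, by simpa using hz true, by simpa using hz false⟩

end Pool.Agent.W487.G
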