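import Mathlib
import Pool.Agent.W487.G.Pair

open CategoryTheory Limits Opposite Abelian AlgebraicGeometry

set_option backward.isDefEq.respectTransparency false
set_option linter.unusedSimpArgs false
set_option linter.unusedSectionVars false

noncomputable section

namespace Pool.Agent.W487.G

variable {F : Type} [Field F] [CharZero F]

abbrev JR (F : Type) [Field F] : GrothendieckTopology (DR F) := Scheme.etaleTopology.over (SF F)

instance : (TC (F := F)).IsContinuous (JR F) (JR F) :=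
  Functor.isContinuous_comp (Over.pullback cc) (Over.map cc) (JR F) (Scheme.etaleTopology.over (SI F)) (JR F)

/-- `(RR A)(T) = A(T ×_F F[i])` -/
def RR : Sh (SF F) ⥤ Sh (SF F) := (TC (F := F)).sheafPushforwardContinuous AddCommGrpCat.{1} (JR F) (JR F)

example (A : Sh (SF F)) (T : DR F) : (RR.obj A).obj.obj (op T) = A.obj.obj (op (TC.obj T)) := rfl

/-- restriction to `T ×_F F[i]` -/
def etaS (A : Sh (SF F)) : A ⟶ RR.obj A :=
  ⟨{ app := fun T => A.obj.map (prT T.unop).op
     naturality := fun T T' f => by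
      have h := prT_naturality f.unop
      change A.obj.map f ≫ A.obj.map (prT T'.unop).op =
        A.obj.map (prT T.unop).op ≫ A.obj.map (TC.map f.unop).op
      rw [← A.obj.map_comp, ← A.obj.map_comp, ← op_comp, h]
      rfl }⟩

/-- conjugation -/
def sgS (A : Sh (SF F)) : RR.obj A ⟶ RR.obj A :=
  ⟨{ app := fun T => A.obj.map (sgT T.unop).op
     naturality := fun T T' f => by
      have h := sgT_naturality f.unop
      change A.obj.map (TC.map f.unop).op ≫ A.obj.map (sgT T'.unop).op =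
        A.obj.map (sgT T.unop).op ≫ A.obj.map (TC.map f.unop).op
      rw [← A.obj.map_comp, ← A.obj.map_comp, ← op_comp, ← op_comp, h] }⟩

lemma etaS_app (A : Sh (SF F)) (T : DR F) (x : A.obj.obj (op T)) :
    (etaS A).hom.app (op T) x = A.obj.map (prT T).op x := rfl

lemma sgS_app (A : Sh (SF F)) (T : DR F) (x : A.obj.obj (op (TC.obj T))) :
    (sgS A).hom.app (op T) x = A.obj.map (sgT T).op x := rfl

lemma RR_map_app {A B : Sh (SF F)} (φ : A ⟶ B) (T : DR F) (x : A.obj.obj (op (TC.obj T))) :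
    (RR.map φ).hom.app (op T) x = φ.hom.app (op (TC.obj T)) x := rfl

lemma RR_restr (A : Sh (SF F)) {T T' : DR F} (f : T' ⟶ T) (x : A.obj.obj (op (TC.obj T))) :
    (RR.obj A).obj.map f.op x = A.obj.map (TC.map f).op x := rfl

/-- the structure of scheme over `F[i]` on `T ×_F F[i]` -/
lemma TC_str (T : DR F) : pullback.snd T.hom cc ≫ cc = (TC.obj T).hom := rfl

/-- the covering of `T` by `T ×_F F[i]` -/
lemma prT_mem (T : DR F) : Sieve.ofArrows (fun _ : Unit => TC.obj T) (fun _ => prT T) ∈ (JR F) T := by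
  apply ofArrows_mem_over
  · intro i
    rw [prT_left]
    infer_instance
  · intro x
    refine ⟨(), ?_⟩
    have : Surjective (cc (F := F)) := by
      rw [surjective_iff]
      intro y
      obtain ⟨z⟩ : Nonempty (SI F) := inferInstanceAs (Nonempty (PrimeSpectrum (QA F)))
      exact ⟨z, Subsingleton.elim _ _⟩
    have : Surjective (pullback.fst T.hom cc) := inferInstance
    exact this.surj x

lemma cplx_cover (T : DR F) : ∃ R ∈ (JR F) T, ∀ (T' : DR F) (f : T' ⟶ T), R f →
    ∃ a : T'.left ⟶ SI F, a ≫ cc = T'.hom := by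
  refine ⟨_, prT_mem T, ?_⟩
  rintro T' f ⟨Y, u, v, ⟨i⟩, rfl⟩
  refine ⟨u.left ≫ pullback.snd T.hom cc, ?_⟩
  have := Over.w u
  rw [← TC_str T] at this
  simpa using this

lemma exact_of_cplx (S : ShortComplex (Sh (SF F)))
    (h : ∀ (T : DR F) (a : T.left ⟶ SI F) (_ : a ≫ cc = T.hom) (y : S.X₂.obj.obj (op T)),
      S.g.hom.app (op T) y = 0 → ∃ x : S.X₁.obj.obj (op T), S.f.hom.app (op T) x = y) :
    S.Exact := by
  apply exact_of_loc
  intro T y hy
  obtain ⟨R, hR, hR'⟩ := cplx_cover T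
  refine ⟨R, hR, fun T' f hf => ?_⟩
  obtain ⟨a, ha⟩ := hR' T' f hf
  apply h T' a ha
  have := congr($(S.g.hom.naturality f.op) y)
  refine this.trans ?_
  change S.X₃.obj.map f.op (S.g.hom.app (op T) y) = 0
  rw [hy, map_zero]

lemma epi_of_cplx {A B : Sh (SF F)} (φ : A ⟶ B)
    (h : ∀ (T : DR F) (a : T.left ⟶ SI F) (_ : a ≫ cc = T.hom) (b : B.obj.obj (op T)),
      ∃ R ∈ (JR F) T, ∀ (T' : DR F) (f : T' ⟶ T), R f →
      ∃ x : A.obj.obj (op T'), φ.hom.app (op T') x = B.obj.map f.op b) : Epi φ := by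
  rw [← Sheaf.isLocallySurjective_iff_epi']
  refine ⟨fun {T} b => ?_⟩
  obtain ⟨R, hR, hR'⟩ := cplx_cover T
  refine (JR F).transitive hR _ (fun T' f hf => ?_)
  obtain ⟨a, ha⟩ := hR' _ f hf
  obtain ⟨R2, hR2, hR2'⟩ := h T' a ha (B.obj.map f.op b)
  refine (JR F).superset_covering (fun T'' g hg => ?_) hR2
  obtain ⟨x, hx⟩ := hR2' T'' g hg
  exact ⟨x, by rw [hx]; simp⟩

lemma etaS_sgS (A : Sh (SF F)) : etaS A ≫ sgS A = etaS A := by
  ext T x
  change A.obj.map (sgT T.unop).op (A.obj.map (prT T.unop).op x) = A.obj.map (prT T.unop).op x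
  rw [← ConcreteCategory.comp_apply, ← A.obj.map_comp, ← op_comp, sgT_prT]

lemma sgS_sgS (A : Sh (SF F)) : sgS A ≫ sgS A = 𝟙 _ := by
  ext T x
  change A.obj.map (sgT T.unop).op (A.obj.map (sgT T.unop).op x) = x
  rw [← ConcreteCategory.comp_apply, ← A.obj.map_comp, ← op_comp, sgT_sgT]
  simp

instance (A : Sh (SF F)) : Mono (etaS A) := by
  apply mono_of_sec
  intro T a b h
  exact ext_arrows A _ _ (prT_mem T) (fun _ => h)

variable (A : Sh (SF F))

lemma seT_pr (T : DR F) (a : T.left ⟶ SI F) (ha : a ≫ cc = T.hom) (x : A.obj.obj (op T)) :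
    A.obj.map (seT T a ha).op (A.obj.map (prT T).op x) = x := by
  rw [← ConcreteCategory.comp_apply, ← A.obj.map_comp, ← op_comp, seT_prT]
  simp

lemma seT_sg (T : DR F) (a : T.left ⟶ SI F) (ha : a ≫ cc = T.hom) (x : A.obj.obj (op (TC.obj T))) :
    A.obj.map (seT T a ha).op (A.obj.map (sgT T).op x) =
      A.obj.map (seT T (a ≫ cj) (conj_hom ha)).op x := by
  rw [← ConcreteCategory.comp_apply, ← A.obj.map_comp, ← op_comp, seT_sgT]

lemma seT_sg' (T : DR F) (a : T.left ⟶ SI F) (ha : a ≫ cc = T.hom) (x : A.obj.obj (op (TC.obj T))) :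
    A.obj.map (seT T (a ≫ cj) (conj_hom ha)).op (A.obj.map (sgT T).op x) =
      A.obj.map (seT T a ha).op x := by
  rw [← ConcreteCategory.comp_apply, ← A.obj.map_comp, ← op_comp, seT_sgT]
  congr 3
  simp

/-- `A → RR A → RR A` with second map `1 - σ`. -/
def scA : ShortComplex (Sh (SF F)) :=
  ShortComplex.mk (etaS A) (𝟙 (RR.obj A) - sgS A) (by
    rw [Preadditive.comp_sub, etaS_sgS, Category.comp_id, sub_self])

lemma sub_app {A B : Sh (SF F)} (f g : A ⟶ B) (T : DR F) (x : A.obj.obj (op T)) :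
    (f - g).hom.app (op T) x = f.hom.app (op T) x - g.hom.app (op T) x := rfl

lemma add_app {A B : Sh (SF F)} (f g : A ⟶ B) (T : DR F) (x : A.obj.obj (op T)) :
    (f + g).hom.app (op T) x = f.hom.app (op T) x + g.hom.app (op T) x := rfl

lemma id_app {A : Sh (SF F)} (T : DR F) (x : A.obj.obj (op T)) :
    (𝟙 A : A ⟶ A).hom.app (op T) x = x := rfl

lemma scA_exact : (scA A).Exact := by
  apply exact_of_cplx
  intro T a ha y hy
  change A.obj.obj (op (TC.obj T)) at y
  have hy' : A.obj.map (sgT T).op y = y := by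
    have h1 : y - A.obj.map (sgT T).op y = 0 := hy
    exact (sub_eq_zero.1 h1).symm
  refine ⟨A.obj.map (seT T a ha).op y, ?_⟩
  change A.obj.map (prT T).op (A.obj.map (seT T a ha).op y) = y
  apply pair_ext A T a ha
  · rw [seT_pr]
  · rw [seT_pr, ← seT_sg, hy']

/-- `RR A → RR A → RR A` with maps `1 - σ` and `1 + σ`. -/
def scB : ShortComplex (Sh (SF F)) :=
  ShortComplex.mk (𝟙 (RR.obj A) - sgS A) (𝟙 (RR.obj A) + sgS A) (by
    simp [Preadditive.comp_add, Preadditive.sub_comp, sgS_sgS])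

lemma scB_exact : (scB A).Exact := by
  apply exact_of_cplx
  intro T a ha y hy
  change A.obj.obj (op (TC.obj T)) at y
  have hy' : A.obj.map (sgT T).op y = - y := by
    have h1 : y + A.obj.map (sgT T).op y = 0 := hy
    exact (neg_eq_of_add_eq_zero_right h1).symm
  obtain ⟨x, hx1, hx2⟩ := pair_glue A T a ha (A.obj.map (seT T a ha).op y) 0
  refine ⟨x, ?_⟩
  change x - A.obj.map (sgT T).op x = y
  apply pair_ext A T a ha
  · rw [map_sub, seT_sg, hx1, hx2, sub_zero]
  · rw [map_sub, seT_sg' A T a ha, hx1, hx2, zero_sub, ← seT_sg, hy', map_neg]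

/-- `RR A → RR A → RR A` with maps `1 + σ` and `1 - σ`. -/
def scC : ShortComplex (Sh (SF F)) :=
  ShortComplex.mk (𝟙 (RR.obj A) + sgS A) (𝟙 (RR.obj A) - sgS A) (by
    rw [Preadditive.comp_sub, Preadditive.add_comp, Preadditive.add_comp, sgS_sgS,
      Category.comp_id, Category.comp_id, Category.id_comp]
    abel)

lemma scC_exact : (scC A).Exact := by
  apply exact_of_cplx
  intro T a ha y hy
  change A.obj.obj (op (TC.obj T)) at y
  have hy' : A.obj.map (sgT T).op y = y := by
    have h1 : y - A.obj.map (sgT T).op y = 0 := hy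
    exact (sub_eq_zero.1 h1).symm
  obtain ⟨x, hx1, hx2⟩ := pair_glue A T a ha (A.obj.map (seT T a ha).op y) 0
  refine ⟨x, ?_⟩
  change x + A.obj.map (sgT T).op x = y
  apply pair_ext A T a ha
  · rw [map_add, seT_sg, hx1, hx2, add_zero]
  · rw [map_add, seT_sg' A T a ha, hx1, hx2, zero_add, ← seT_sg, hy']

end Pool.Agent.W487.G
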