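import Mathlib
import Pool.Agent.W487.G.Rst

open CategoryTheory Limits Opposite Abelian AlgebraicGeometry

set_option backward.isDefEq.respectTransparency false
set_option linter.unusedSimpArgs false
set_option linter.unusedSectionVars false

noncomputable section

namespace Pool.Agent.W487.G

variable {F : Type} [Field F] [CharZero F]

variable (A : Sh (SF F))

/-- the kernel of `1 + σ` on `RR A` -/
def KK : Sh (SF F) := kernel (𝟙 (RR.obj A) + sgS A)

def KKi : KK A ⟶ RR.obj A := kernel.ι _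

instance : Mono (KKi A) := by unfold KKi; infer_instance

def qq : RR.obj A ⟶ KK A := kernel.lift _ (𝟙 (RR.obj A) - sgS A) (scB A).zero

lemma qq_KKi : qq A ≫ KKi A = 𝟙 (RR.obj A) - sgS A := kernel.lift_ι _ _ _

lemma KKi_zero : KKi A ≫ (𝟙 (RR.obj A) + sgS A) = 0 := kernel.condition _

instance : Mono (scA A).f := inferInstanceAs (Mono (etaS A))

/-- the norm `RR A → A` -/
def NN : RR.obj A ⟶ A := (scA_exact A).lift (𝟙 (RR.obj A) + sgS A) (scC A).zero

lemma NN_eta : NN A ≫ etaS A = 𝟙 (RR.obj A) + sgS A := (scA_exact A).lift_f _ _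

lemma eta_NN : etaS A ≫ NN A = 𝟙 A + 𝟙 A := by
  rw [← cancel_mono (etaS A), Category.assoc, NN_eta, Preadditive.comp_add, etaS_sgS,
    Preadditive.add_comp, Category.comp_id, Category.id_comp]

/-- `0 → A → RR A → KK A → 0` -/
def s1 : ShortComplex (Sh (SF F)) := ShortComplex.mk (etaS A) (qq A) (by
  rw [← cancel_mono (KKi A), Category.assoc, qq_KKi, zero_comp]
  exact (scA A).zero)

/-- `0 → KK A → RR A → A → 0` -/
def s2 : ShortComplex (Sh (SF F)) := ShortComplex.mk (KKi A) (NN A) (by
  rw [← cancel_mono (etaS A), Category.assoc, NN_eta, zero_comp, KKi_zero])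

instance : Epi (qq A) := by
  have := (scB A).exact_iff_epi_kernel_lift.1 (scB_exact A)
  exact this

instance : Epi (NN A) := by
  apply epi_of_loc
  intro T b
  have h := (scC A).exact_iff_epi_kernel_lift.1 (scC_exact A)
  have hb : etaS A ≫ (scC A).g = 0 := (scA A).zero
  obtain ⟨R, hR, hR'⟩ := epi_loc (kernel.lift (scC A).g (scC A).f (scC A).zero)
    ((kernel.lift (scC A).g (etaS A) hb).hom.app (op T) b)
  refine ⟨R, hR, fun T' f hf => ?_⟩
  obtain ⟨x, hx⟩ := hR' T' f hf
  refine ⟨x, ?_⟩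
  apply sec_inj_of_mono (etaS A)
  have h1 := congrArg ((kernel.ι (scC A).g).hom.app (op T')) hx
  have h2 := congr(($(NN_eta A)).hom.app (op T') x)
  have h3 := congr(($(kernel.lift_ι (scC A).g (scC A).f (scC A).zero)).hom.app (op T') x)
  have h4 := congr(($(kernel.lift_ι (scC A).g (etaS A) hb)).hom.app (op T) b)
  have h5 := congr($((kernel.ι (scC A).g).hom.naturality f.op)
    ((kernel.lift (scC A).g (etaS A) hb).hom.app (op T) b))
  have h6 := congr($((etaS A).hom.naturality f.op) b)
  refine h2.trans (h3.symm.trans (h1.trans (h5.trans ?_)))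
  refine Eq.trans ?_ h6.symm
  exact congrArg ((RR.obj A).obj.map f.op) h4

lemma s1_exact : (s1 A).ShortExact where
  exact := by
    let φ : s1 A ⟶ scA A := { τ₁ := 𝟙 _, τ₂ := 𝟙 _, τ₃ := KKi A, comm₁₂ := by simp [s1, scA],
                              comm₂₃ := by simp [s1, scA, qq_KKi] }
    have : Epi φ.τ₁ := inferInstanceAs (Epi (𝟙 _))
    have : IsIso φ.τ₂ := inferInstanceAs (IsIso (𝟙 _))
    have : Mono φ.τ₃ := inferInstanceAs (Mono (KKi A))
    exact (ShortComplex.exact_iff_of_epi_of_isIso_of_mono φ).2 (scA_exact A)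
  mono_f := inferInstanceAs (Mono (etaS A))
  epi_g := inferInstanceAs (Epi (qq A))

lemma s2_exact : (s2 A).ShortExact where
  exact := by
    let S : ShortComplex (Sh (SF F)) := ShortComplex.mk (KKi A) (𝟙 (RR.obj A) + sgS A) (KKi_zero A)
    have hS : S.Exact := ShortComplex.exact_kernel _
    let φ : s2 A ⟶ S := { τ₁ := 𝟙 _, τ₂ := 𝟙 _, τ₃ := etaS A, comm₁₂ := by simp [s2, S],
                          comm₂₃ := by simp [s2, S, NN_eta] }
    have : Epi φ.τ₁ := inferInstanceAs (Epi (𝟙 _))
    have : IsIso φ.τ₂ := inferInstanceAs (IsIso (𝟙 _))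
    have : Mono φ.τ₃ := inferInstanceAs (Mono (etaS A))
    exact (ShortComplex.exact_iff_of_epi_of_isIso_of_mono φ).2 hS
  mono_f := inferInstanceAs (Mono (KKi A))
  epi_g := inferInstanceAs (Epi (NN A))

end Pool.Agent.W487.G
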