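import Mathlib
import Pool.Agent.W487.G.Per

open CategoryTheory Limits Opposite Abelian AlgebraicGeometry

set_option backward.isDefEq.respectTransparency false
set_option linter.unusedSimpArgs false
set_option linter.unusedSectionVars false

noncomputable section

namespace Pool.Agent.W487.G

variable {F : Type} [Field F] [CharZero F]

instance : (RR (F := F)).Additive := ⟨by intros; rfl⟩

lemma seT_naturality {T T' : DR F} (f : T' ⟶ T) (a : T.left ⟶ SI F) (ha : a ≫ cc = T.hom)
    (ha' : (f.left ≫ a) ≫ cc = T'.hom) :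
    seT T' (f.left ≫ a) ha' ≫ TC.map f = f ≫ seT T a ha := by
  apply TC_hom_ext
  · simp only [Over.comp_left, seT_left, Category.assoc, TC_map_left, pullback.lift_fst,
      seL_fst, seL_fst_assoc, Category.comp_id]
  · simp only [Over.comp_left, seT_left, Category.assoc, TC_map_left, pullback.lift_snd,
      seL_snd, pullback.lift_snd_assoc]

lemma str_map {T T' : DR F} (f : T' ⟶ T) (a : T.left ⟶ SI F) (ha : a ≫ cc = T.hom) :
    (f.left ≫ a) ≫ cc = T'.hom := by
  rw [Category.assoc, ha]
  exact Over.w f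

lemma RR_mono {A B : Sh (SF F)} (φ : A ⟶ B) [Mono φ] : Mono (RR.map φ) := by
  apply mono_of_sec
  intro T a b h
  exact sec_inj_of_mono φ (T := TC.obj T) h

lemma RR_epi {A B : Sh (SF F)} (φ : A ⟶ B) [Epi φ] : Epi (RR.map φ) := by
  apply epi_of_cplx
  intro T a ha b
  change B.obj.obj (op (TC.obj T)) at b
  obtain ⟨R1, hR1, h1⟩ := epi_loc φ (B.obj.map (seT T a ha).op b)
  obtain ⟨R2, hR2, h2⟩ := epi_loc φ (B.obj.map (seT T (a ≫ cj) (conj_hom ha)).op b)
  refine ⟨R1 ⊓ R2, (JR F).intersection_covering hR1 hR2, ?_⟩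
  rintro T' f ⟨hf1, hf2⟩
  obtain ⟨x1, hx1⟩ := h1 T' f hf1
  obtain ⟨x2, hx2⟩ := h2 T' f hf2
  have ha' := str_map f a ha
  obtain ⟨z, hz1, hz2⟩ := pair_glue A T' (f.left ≫ a) ha' x1 x2
  refine ⟨z, ?_⟩
  change φ.hom.app (op (TC.obj T')) z = B.obj.map (TC.map f).op b
  apply pair_ext B T' (f.left ≫ a) ha'
  · have e1 := congr($(φ.hom.naturality (seT T' (f.left ≫ a) ha').op) z)
    refine Eq.trans e1.symm ?_
    change φ.hom.app (op T') (A.obj.map (seT T' (f.left ≫ a) ha').op z) = _
    rw [hz1, hx1, ← ConcreteCategory.comp_apply, ← B.obj.map_comp, ← op_comp,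
      ← ConcreteCategory.comp_apply, ← B.obj.map_comp, ← op_comp, seT_naturality f a ha]
  · have e1 := congr($(φ.hom.naturality (seT T' ((f.left ≫ a) ≫ cj) (conj_hom ha')).op) z)
    refine Eq.trans e1.symm ?_
    change φ.hom.app (op T') (A.obj.map (seT T' ((f.left ≫ a) ≫ cj) (conj_hom ha')).op z) = _
    rw [hz2, hx2, ← ConcreteCategory.comp_apply, ← B.obj.map_comp, ← op_comp,
      ← ConcreteCategory.comp_apply, ← B.obj.map_comp, ← op_comp,
      ← seT_naturality f (a ≫ cj) (conj_hom ha) (by simpa using ha')]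
    congr 5

lemma RR_exact {S : ShortComplex (Sh (SF F))} (hS : S.ShortExact) : (S.map RR).ShortExact := by
  have := hS.mono_f
  have := hS.epi_g
  refine { exact := ?_, mono_f := RR_mono S.f, epi_g := RR_epi S.g }
  apply exact_of_loc
  intro T y hy
  obtain ⟨x, hx⟩ := exact_sec hS.exact (T := TC.obj T) y hy
  refine ⟨⊤, (JR F).top_mem T, fun T' f _ => ⟨(RR.obj S.X₁).obj.map f.op x, ?_⟩⟩
  have h1 := congr($((RR.map S.f).hom.naturality f.op) x)
  refine h1.trans ?_
  exact congrArg ((RR.obj S.X₂).obj.map f.op) hx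

lemma etaS_naturality {A B : Sh (SF F)} (φ : A ⟶ B) : φ ≫ etaS B = etaS A ≫ RR.map φ := by
  ext T x
  exact congr($(φ.hom.naturality (prT T.unop).op) x).symm

/-- the map of short complexes given by `etaS`. -/
def etaSC (S : ShortComplex (Sh (SF F))) : S ⟶ S.map RR where
  τ₁ := etaS _
  τ₂ := etaS _
  τ₃ := etaS _
  comm₁₂ := (etaS_naturality _).symm
  comm₂₃ := (etaS_naturality _).symm

/-- the retraction `RR (RR B) → RR B` -/
def rho (B : Sh (SF F)) : RR.obj (RR.obj B) ⟶ RR.obj B :=
  ⟨{ app := fun T => B.obj.map (seT (TC.obj T.unop) (pullback.snd T.unop.hom cc) rfl).op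
     naturality := fun T T' f => by
      have h := seT_naturality (TC.map f.unop) (pullback.snd T.unop.hom cc) rfl
        (by simp [TC_map_left]; rfl)
      change B.obj.map (TC.map (TC.map f.unop)).op ≫ B.obj.map _ =
        B.obj.map _ ≫ B.obj.map (TC.map f.unop).op
      rw [← B.obj.map_comp, ← B.obj.map_comp, ← op_comp, ← op_comp, ← h]
      congr 4
      simp [TC_map_left] }⟩

lemma etaS_rho (B : Sh (SF F)) : etaS (RR.obj B) ≫ rho B = 𝟙 _ := by
  ext T x
  change B.obj.map (seT (TC.obj T.unop) (pullback.snd T.unop.hom cc) rfl).op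
    (B.obj.map (TC.map (prT T.unop)).op x) = x
  rw [← ConcreteCategory.comp_apply, ← B.obj.map_comp, ← op_comp]
  have : seT (TC.obj T.unop) (pullback.snd T.unop.hom cc) rfl ≫ TC.map (prT T.unop) = 𝟙 _ := by
    apply TC_hom_ext
    · rw [Over.comp_left, Category.assoc, TC_map_left, pullback.lift_fst, seT_left,
        ← Category.assoc, seL_fst, prT_left]
      rfl
    · rw [Over.comp_left, Category.assoc, TC_map_left, pullback.lift_snd, seT_left, seL_snd]
      exact (Category.id_comp _).symm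
  rw [this]
  simp

/-- restriction of cohomology classes -/
def res {S : Scheme.{0}} {T T' : Over S} (f : T' ⟶ T) {A : Sh S} {n : ℕ}
    (x : Ext ((ZS S).obj T) A n) :
    Ext ((ZS S).obj T') A n :=
  (Ext.mk₀ ((ZS S).map f)).comp x (zero_add n)

section res

variable {S : Scheme.{0}} {T T' T'' : Over S} {A B : Sh S} {n : ℕ}

lemma res_comp (f : T' ⟶ T) (g : T'' ⟶ T')
    (x : Ext ((ZS S).obj T) A n) :
    res (g ≫ f) x = res g (res f x) := by
  simp only [res, Functor.map_comp]
  rw [← Ext.mk₀_comp_mk₀_assoc]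

lemma res_id (x : Ext ((ZS S).obj T) A n) :
    res (𝟙 T) x = x := by
  simp [res]

lemma res_add (f : T' ⟶ T) (x y : Ext ((ZS S).obj T) A n) :
    res f (x + y) = res f x + res f y := by
  simp [res]

lemma res_zero (f : T' ⟶ T) :
    res f (0 : Ext ((ZS S).obj T) A n) = 0 := by
  simp [res]

lemma res_mk₀ (f : T' ⟶ T) (x : (ZS S).obj T ⟶ A) :
    res f (Ext.mk₀ x) = Ext.mk₀ ((ZS S).map f ≫ x) := by
  simp [res]

lemma res_postcomp (f : T' ⟶ T) {a b : ℕ} (x : Ext ((ZS S).obj T) A a)
    (y : Ext A B b) (h : a + b = n) : res f (x.comp y h) = (res f x).comp y h := by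
  simp only [res]
  rw [Ext.comp_assoc _ _ _ _ _ (by lia)]

end res

/-- every class of positive degree vanishes locally. -/
lemma efface {S : Scheme.{0}} (n : ℕ) : ∀ (A : Sh S) (T : Over S)
    (x : Ext ((ZS S).obj T) A (n + 1)),
    ∃ R ∈ (Scheme.etaleTopology.over S) T, ∀ (T' : Over S) (f : T' ⟶ T), R f → res f x = 0 := by
  induction n with
  | zero =>
    intro A T x
    let I : InjectivePresentation A := Classical.arbitrary _
    let Sc := ShortComplex.mk _ _ (cokernel.condition I.f)
    have hS : Sc.ShortExact := { exact := ShortComplex.exact_cokernel I.f }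
    have : Injective Sc.X₂ := I.injective
    obtain ⟨y, rfl⟩ := Ext.covariant_sequence_exact₁ _ hS x
      (Ext.eq_zero_of_injective _) (n₀ := 0) rfl
    obtain ⟨k, rfl⟩ := (Ext.mk₀_bijective _ _).2 y
    obtain ⟨R, hR, hR'⟩ := epi_loc Sc.g (sec k)
    refine ⟨R, hR, fun T' f hf => ?_⟩
    obtain ⟨j, hj⟩ := hR' T' f hf
    have h1 : (ZS S).map f ≫ k = ofSec j ≫ Sc.g := by
      apply sec_injective
      rw [sec_map_comp, sec_comp, sec_ofSec, hj]
    rw [res_postcomp, res_mk₀, h1, ← Ext.mk₀_comp_mk₀,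
      Ext.comp_assoc _ _ _ _ (zero_add 1) (by lia), hS.comp_extClass, Ext.comp_zero]
  | succ n ih =>
    intro A T x
    let I : InjectivePresentation A := Classical.arbitrary _
    let Sc := ShortComplex.mk _ _ (cokernel.condition I.f)
    have hS : Sc.ShortExact := { exact := ShortComplex.exact_cokernel I.f }
    have : Injective Sc.X₂ := I.injective
    obtain ⟨y, rfl⟩ := Ext.covariant_sequence_exact₁ _ hS x
      (Ext.eq_zero_of_injective _) (n₀ := n + 1) rfl
    obtain ⟨R, hR, hR'⟩ := ih _ T y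
    refine ⟨R, hR, fun T' f hf => ?_⟩
    rw [res_postcomp, hR' T' f hf, Ext.zero_comp]

lemma vanish_eta (n : ℕ) : ∀ (A : Sh (SF F)) (T : DR F)
    (x : Ext ((ZS (SF F)).obj T) A n) (_ : res (prT T) x = 0),
    x.comp (Ext.mk₀ (etaS A)) (add_zero n) = 0 := by
  induction n with
  | zero =>
    intro A T x hx
    obtain ⟨k, rfl⟩ := (Ext.mk₀_bijective _ _).2 x
    rw [res_mk₀, Ext.mk₀_eq_zero_iff] at hx
    rw [Ext.mk₀_comp_mk₀, Ext.mk₀_eq_zero_iff]
    apply sec_injective
    have := congrArg sec hx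
    rw [sec_map_comp] at this
    exact this
  | succ n ih =>
    intro A T x hx
    let I : InjectivePresentation A := Classical.arbitrary _
    let Sc := ShortComplex.mk _ _ (cokernel.condition I.f)
    have hS : Sc.ShortExact := { exact := ShortComplex.exact_cokernel I.f }
    have : Injective Sc.X₂ := I.injective
    obtain ⟨y, rfl⟩ := Ext.covariant_sequence_exact₁ _ hS x
      (Ext.eq_zero_of_injective _) (n₀ := n) rfl
    have hnat := ShortComplex.ShortExact.extClass_naturality hS (RR_exact hS) (etaSC Sc)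
    have key : (y.comp (Ext.mk₀ (etaS Sc.X₃)) (add_zero n)).comp (RR_exact hS).extClass rfl = 0 := by
      rw [res_postcomp] at hx
      obtain ⟨j, hj⟩ := Ext.covariant_sequence_exact₃ _ hS _ _ hx
      cases n with
      | zero =>
        obtain ⟨k, rfl⟩ := (Ext.mk₀_bijective _ _).2 y
        obtain ⟨j, rfl⟩ := (Ext.mk₀_bijective _ _).2 j
        rw [res_mk₀, Ext.mk₀_comp_mk₀] at hj
        have hj' := (Ext.mk₀_bijective _ _).1 hj
        let j' : (RR.obj Sc.X₂).obj.obj (op T) := sec (T := TC.obj T) (A := Sc.X₂) j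
        have h1 : k ≫ etaS Sc.X₃ = (ofSec (T := T) (A := RR.obj Sc.X₂) j') ≫ (Sc.map RR).g := by
          apply sec_injective
          rw [sec_comp, sec_comp, sec_ofSec]
          have := congrArg sec hj'
          rw [sec_map_comp, sec_comp] at this
          exact this.symm
        rw [Ext.mk₀_comp_mk₀, h1, ← Ext.mk₀_comp_mk₀,
          Ext.comp_assoc _ _ _ _ (zero_add 1) (by lia), (RR_exact hS).comp_extClass,
          Ext.comp_zero]
      | succ m =>
        have h1 : j = 0 := Ext.eq_zero_of_injective _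
        rw [h1, Ext.zero_comp] at hj
        rw [ih _ T y hj.symm, Ext.zero_comp]
    rw [Ext.comp_assoc _ _ _ _ (zero_add 1) (by lia)] at key
    rw [Ext.comp_assoc _ _ _ _ (add_zero 1) (by lia)]
    rw [← key]
    exact congrArg (fun z => y.comp z rfl) hnat

end Pool.Agent.W487.G
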