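import Mathlib
import Pool.Agent.W487.G.Coh

open CategoryTheory Limits Opposite Abelian AlgebraicGeometry

set_option backward.isDefEq.respectTransparency false
set_option linter.unusedSimpArgs false

noncomputable section

namespace Pool.Agent.W487.G

variable {S : Scheme.{0}}

abbrev JS (S : Scheme.{0}) : GrothendieckTopology (Over S) := Scheme.etaleTopology.over S

/-- two open pieces covering `X`, with intersection `V01`. -/
structure TwoCover (S : Scheme.{0}) where
  X : Over S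
  V0 : Over S
  V1 : Over S
  V01 : Over S
  j0 : V0 ⟶ X
  j1 : V1 ⟶ X
  k0 : V01 ⟶ V0
  k1 : V01 ⟶ V1
  m0 : Mono j0
  m1 : Mono j1
  n0 : Mono k0
  e0 : Etale j0.left
  e1 : Etale j1.left
  comm : k0 ≫ j0 = k1 ≫ j1
  lift : ∀ (Z : Over S) (p : Z ⟶ V0) (q : Z ⟶ V1), p ≫ j0 = q ≫ j1 →
    ∃ r : Z ⟶ V01, r ≫ k0 = p ∧ r ≫ k1 = q
  cov : ∀ x : X.left, x ∈ Set.range j0.left ∨ x ∈ Set.range j1.left

namespace TwoCover

variable (D : TwoCover S)

attribute [instance] m0 m1 n0

lemma cover_mem : Sieve.ofArrows (fun b : Bool => bif b then D.V1 else D.V0)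
    (fun b => match b with | true => D.j1 | false => D.j0) ∈ (JS S) D.X := by
  apply ofArrows_mem_over
  · rintro (_ | _)
    · exact D.e0
    · exact D.e1
  · intro x
    rcases D.cov x with h | h
    · exact ⟨false, h⟩
    · exact ⟨true, h⟩

lemma glue (A : Sh S) (a0 : A.obj.obj (op D.V0)) (a1 : A.obj.obj (op D.V1))
    (h : A.obj.map D.k0.op a0 = A.obj.map D.k1.op a1) :
    ∃ a : A.obj.obj (op D.X), A.obj.map D.j0.op a = a0 ∧ A.obj.map D.j1.op a = a1 := by
  obtain ⟨a, ha⟩ := glue_arrows A _ _ D.cover_mem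
    (fun b => match b with | true => a1 | false => a0) (by
    rintro (_ | _) (_ | _) Z p q hpq
    · change p ≫ D.j0 = q ≫ D.j0 at hpq
      rw [cancel_mono] at hpq
      rw [hpq]
    · change p ≫ D.j0 = q ≫ D.j1 at hpq
      obtain ⟨r, rfl, rfl⟩ := D.lift Z p q hpq
      have := congrArg (A.obj.map r.op) h
      simpa using this
    · change p ≫ D.j1 = q ≫ D.j0 at hpq
      obtain ⟨r, rfl, rfl⟩ := D.lift Z q p hpq.symm
      have := congrArg (A.obj.map r.op) h.symm
      simpa using this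
    · change p ≫ D.j1 = q ≫ D.j1 at hpq
      rw [cancel_mono] at hpq
      rw [hpq])
  exact ⟨a, ha false, ha true⟩

lemma ext (A : Sh S) {a a' : A.obj.obj (op D.X)} (h0 : A.obj.map D.j0.op a = A.obj.map D.j0.op a')
    (h1 : A.obj.map D.j1.op a = A.obj.map D.j1.op a') : a = a' := by
  refine ext_arrows A _ _ D.cover_mem ?_
  rintro (_ | _)
  · exact h0
  · exact h1

/-- `ZF V01 → ZF V0 ⊞ ZF V1 → ZF X` -/
def sc : ShortComplex (Sh S) :=
  ShortComplex.mk (biprod.lift ((ZS S).map D.k0) (-(ZS S).map D.k1))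
    (biprod.desc ((ZS S).map D.j0) ((ZS S).map D.j1)) (by
    simp only [biprod.lift_desc, Preadditive.neg_comp, ← Functor.map_comp, D.comm]
    simp)

lemma mono_ZF_map {T T' : Over S} (f : T' ⟶ T) [Mono f] : Mono ((ZS S).map f) := by
  change Mono ((presheafToSheaf _ _).map (Functor.whiskerRight (uliftYoneda.{1}.map f)
    AddCommGrpCat.free.{1}))
  have : Mono (Functor.whiskerRight (uliftYoneda.{1}.map f) AddCommGrpCat.free.{1}) := by
    infer_instance
  infer_instance

lemma glue_hom {A : Sh S} (k : (ZS S).obj D.V0 ⊞ (ZS S).obj D.V1 ⟶ A)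
    (hk : D.sc.f ≫ k = 0) : ∃ l : (ZS S).obj D.X ⟶ A, D.sc.g ≫ l = k := by
  have h0 : A.obj.map D.k0.op (sec (biprod.inl ≫ k)) = A.obj.map D.k1.op (sec (biprod.inr ≫ k)) := by
    rw [← sec_map_comp, ← sec_map_comp]
    congr 1
    have h1 : D.sc.f = (ZS S).map D.k0 ≫ biprod.inl - (ZS S).map D.k1 ≫ biprod.inr := by
      apply biprod.hom_ext <;> simp [sc]
    rw [h1, Preadditive.sub_comp, Category.assoc, Category.assoc, sub_eq_zero] at hk
    exact hk
  obtain ⟨a, ha0, ha1⟩ := D.glue A _ _ h0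
  refine ⟨ofSec a, ?_⟩
  apply biprod.hom_ext'
  · simp only [sc, biprod.inl_desc_assoc]
    apply sec_injective
    rw [sec_map_comp, sec_ofSec, ha0]
  · simp only [sc, biprod.inr_desc_assoc]
    apply sec_injective
    rw [sec_map_comp, sec_ofSec, ha1]

lemma g_ext {A : Sh S} {l l' : (ZS S).obj D.X ⟶ A} (h : D.sc.g ≫ l = D.sc.g ≫ l') :
    l = l' := by
  apply sec_injective
  apply D.ext
  · have := congrArg (fun z => sec (biprod.inl ≫ z)) h
    simpa only [sc, biprod.inl_desc_assoc, sec_map_comp] using this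
  · have := congrArg (fun z => sec (biprod.inr ≫ z)) h
    simpa only [sc, biprod.inr_desc_assoc, sec_map_comp] using this

lemma sc_shortExact : D.sc.ShortExact := by
  have h := D.sc.exact_and_epi_g_iff_g_is_cokernel.2 ⟨CokernelCofork.IsColimit.ofπ _ _
    (fun k hk => (D.glue_hom k hk).choose) (fun k hk => (D.glue_hom k hk).choose_spec)
    (fun k hk m hm => D.g_ext (hm.trans (D.glue_hom k hk).choose_spec.symm))⟩
  have : Mono D.sc.f := by
    have h1 : D.sc.f ≫ biprod.fst = (ZS S).map D.k0 := by simp [sc]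
    have h2 : Mono (D.sc.f ≫ biprod.fst) := by
      rw [h1]
      exact mono_ZF_map D.k0
    exact mono_of_mono _ biprod.fst
  have := h.2
  exact { exact := h.1 }

/-- the connecting map of the Mayer-Vietoris sequence -/
def del {A : Sh S} {n : ℕ} (c : Ext ((ZS S).obj D.V01) A n) :
    Ext ((ZS S).obj D.X) A (1 + n) :=
  D.sc_shortExact.extClass.comp c rfl

lemma del_add {A : Sh S} {n : ℕ} (c c' : Ext ((ZS S).obj D.V01) A n) :
    D.del (c + c') = D.del c + D.del c' := by
  simp [del]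

lemma del_zero {A : Sh S} {n : ℕ} : D.del (0 : Ext ((ZS S).obj D.V01) A n) = 0 := by
  simp [del]

lemma res_j0_del {A : Sh S} {n : ℕ} (c : Ext ((ZS S).obj D.V01) A n) :
    res D.j0 (D.del c) = 0 := by
  have h1 : (ZS S).map D.j0 = biprod.inl ≫ D.sc.g := by simp [sc]
  have h2 := D.sc_shortExact.comp_extClass
  rw [res, h1, del, ← Ext.mk₀_comp_mk₀_assoc, ← Ext.comp_assoc _ _ _ (zero_add 1) rfl (by lia), h2,
    Ext.zero_comp, Ext.comp_zero]

lemma res_j1_del {A : Sh S} {n : ℕ} (c : Ext ((ZS S).obj D.V01) A n) :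
    res D.j1 (D.del c) = 0 := by
  have h1 : (ZS S).map D.j1 = biprod.inr ≫ D.sc.g := by simp [sc]
  have h2 := D.sc_shortExact.comp_extClass
  rw [res, h1, del, ← Ext.mk₀_comp_mk₀_assoc, ← Ext.comp_assoc _ _ _ (zero_add 1) rfl (by lia), h2,
    Ext.zero_comp, Ext.comp_zero]

lemma eq_sub_of_del {A : Sh S} {n : ℕ} (c : Ext ((ZS S).obj D.V01) A n) (h : D.del c = 0) :
    ∃ (b0 : Ext ((ZS S).obj D.V0) A n) (b1 : Ext ((ZS S).obj D.V1) A n),
      c = res D.k0 b0 - res D.k1 b1 := by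
  obtain ⟨x, hx⟩ := Ext.contravariant_sequence_exact₁ D.sc_shortExact _ c rfl h
  refine ⟨(Ext.mk₀ biprod.inl).comp x (zero_add n), (Ext.mk₀ biprod.inr).comp x (zero_add n), ?_⟩
  have h1 : D.sc.f = (ZS S).map D.k0 ≫ biprod.inl - (ZS S).map D.k1 ≫ biprod.inr := by
    apply biprod.hom_ext <;> simp [sc]
  rw [← hx, h1, res, res, Ext.mk₀_comp_mk₀_assoc, Ext.mk₀_comp_mk₀_assoc, sub_eq_add_neg,
    sub_eq_add_neg, Ext.mk₀_add, Ext.mk₀_neg, Ext.add_comp, Ext.neg_comp]

end TwoCover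

end Pool.Agent.W487.G
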