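import Mathlib
import Pool.Agent.W487.G.MV

open CategoryTheory Limits Opposite AlgebraicGeometry

set_option backward.isDefEq.respectTransparency false
set_option linter.unusedSimpArgs false

noncomputable section

namespace Pool.Agent.W487.G

variable {S : Scheme.{0}}

/-- an open subscheme as an object over `S` -/
def opO (X : Over S) (U : X.left.Opens) : Over S := Over.mk (U.ι ≫ X.hom)

/-- the inclusion of an open subscheme -/
def opI (X : Over S) (U : X.left.Opens) : opO X U ⟶ X := Over.homMk U.ι rfl

def opH {X : Over S} {U V : X.left.Opens} (h : U ≤ V) : opO X U ⟶ opO X V :=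
  Over.homMk (X.left.homOfLE h) (by simp [opO])

lemma opH_left {X : Over S} {U V : X.left.Opens} (h : U ≤ V) :
    (opH h).left = X.left.homOfLE h := rfl

@[reassoc (attr := simp)]
lemma opH_opI {X : Over S} {U V : X.left.Opens} (h : U ≤ V) : opH h ≫ opI X V = opI X U := by
  apply Over.OverMorphism.ext
  exact Scheme.homOfLE_ι _ h

lemma opI_left {X : Over S} (U : X.left.Opens) : (opI X U).left = U.ι := rfl

instance {X : Over S} (U : X.left.Opens) : Mono (opI X U) := by
  have : Mono (opI X U).left := inferInstanceAs (Mono U.ι)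
  exact Over.mono_of_mono_left _

instance {X : Over S} {U V : X.left.Opens} (h : U ≤ V) : Mono (opH h) := by
  have : Mono (opH h ≫ opI X V) := by
    rw [opH_opI]
    infer_instance
  exact mono_of_mono _ (opI X V)

/-- lifting a morphism to an open subscheme -/
def opL {X Z : Over S} (U : X.left.Opens) (f : Z ⟶ X) (h : Set.range f.left ⊆ U) :
    Z ⟶ opO X U :=
  Over.homMk (IsOpenImmersion.lift U.ι f.left (h.trans (Scheme.Opens.range_ι U).ge))
    (by simp [opO])

@[reassoc (attr := simp)]
lemma opL_opI {X Z : Over S} (U : X.left.Opens) (f : Z ⟶ X) (h : Set.range f.left ⊆ U) :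
    opL U f h ≫ opI X U = f := by
  apply Over.OverMorphism.ext
  exact IsOpenImmersion.lift_fac _ _ _

lemma range_opI {X : Over S} (U : X.left.Opens) : Set.range (opI X U).left = U := by
  rw [opI_left]
  exact Scheme.Opens.range_ι U

lemma range_comp_opI {X Z : Over S} {U : X.left.Opens} (f : Z ⟶ opO X U) :
    Set.range (f ≫ opI X U).left ⊆ U := by
  rw [← range_opI U, Over.comp_left, Scheme.Hom.comp_base, TopCat.coe_comp]
  exact Set.range_comp_subset_range _ _

/-- the cover of `U = V0 ∪ V1`. -/
def ofOpens (X : Over S) (U V0 V1 : X.left.Opens) (h0 : V0 ≤ U) (h1 : V1 ≤ U)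
    (h : U ≤ V0 ⊔ V1) : TwoCover S where
  X := opO X U
  V0 := opO X V0
  V1 := opO X V1
  V01 := opO X (V0 ⊓ V1)
  j0 := opH h0
  j1 := opH h1
  k0 := opH inf_le_left
  k1 := opH inf_le_right
  m0 := inferInstance
  m1 := inferInstance
  n0 := inferInstance
  e0 := by
    rw [opH_left]
    infer_instance
  e1 := by
    rw [opH_left]
    infer_instance
  comm := by
    rw [← cancel_mono (opI X U)]
    simp
  lift := by
    intro Z p q hpq
    have hpq' : p ≫ opI X V0 = q ≫ opI X V1 := by
      have := congrArg (fun z => z ≫ opI X U) hpq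
      simpa using this
    refine ⟨opL (V0 ⊓ V1) (p ≫ opI X V0) ?_, ?_, ?_⟩
    · intro x hx
      refine ⟨range_comp_opI p hx, ?_⟩
      rw [hpq'] at hx
      exact range_comp_opI q hx
    · rw [← cancel_mono (opI X V0)]
      simp
    · rw [← cancel_mono (opI X V1)]
      simp [hpq']
  cov := by
    intro x
    rcases h x.2 with hx | hx
    · left
      refine ⟨⟨x.1, hx⟩, ?_⟩
      apply (Scheme.Opens.ι U).injective
      change U.ι ((X.left.homOfLE h0) _) = _
      rw [← Scheme.Hom.comp_apply, Scheme.homOfLE_ι]
      rfl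
    · right
      refine ⟨⟨x.1, hx⟩, ?_⟩
      apply (Scheme.Opens.ι U).injective
      change U.ι ((X.left.homOfLE h1) _) = _
      rw [← Scheme.Hom.comp_apply, Scheme.homOfLE_ι]
      rfl

end Pool.Agent.W487.G
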