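import Mathlib
import Pool.Agent.W487.WeilAlg
import Pool.Agent.W487.G.Dbl

open CategoryTheory Limits Opposite Abelian AlgebraicGeometry

set_option backward.isDefEq.respectTransparency false
set_option linter.unusedSimpArgs false
set_option linter.unusedSectionVars false

noncomputable section

namespace Pool.Agent.W487.G

/-- `ℂ → ℝ[i]` -/
def CtoQA : ℂ →+* QA ℝ where
  toFun z := ⟨z.re, z.im⟩
  map_one' := by ext <;> rfl
  map_zero' := by ext <;> rfl
  map_add' x y := by ext <;> simp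
  map_mul' x y := by
    ext
    · simp; ring
    · simp

lemma weil_aff (A B : CommRingCat.{0}) (φ : A ⟶ B) (hφ : φ.hom.Etale) (r : A ⟶ .of ℝ)
    (v : B ⟶ .of ℂ) (h : φ ≫ v = r ≫ CommRingCat.ofHom (algebraMap ℝ ℂ)) :
    ∃ (D : CommRingCat.{0}) (δ : A ⟶ D) (ω : D ⟶ .of ℝ), δ.hom.Etale ∧ δ ≫ ω = r ∧
      ∀ (P : Scheme.{0}) (p : P ⟶ Spec D) (i : Γ(P, ⊤)) (_ : i * i = -1), ∃ h : P ⟶ Spec B,
        h ≫ Spec.map φ = p ≫ Spec.map δ := by
  algebraize [φ.hom]
  obtain ⟨D, _, _, β, hD, huniv⟩ := weil_etale A B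
  let _ : Algebra A ℝ := r.hom.toAlgebra
  let θ : B →ₐ[A] QA ℝ :=
    { toRingHom := CtoQA.comp v.hom
      commutes' := fun a => by
        have h1 : v.hom (φ.hom a) = algebraMap ℝ ℂ (r.hom a) := congr($(h).hom a)
        change CtoQA (v.hom (φ.hom a)) = algebraMap A (QA ℝ) a
        rw [h1]
        ext
        · rfl
        · rfl }
  obtain ⟨f, hf⟩ := huniv ℝ θ
  refine ⟨.of D, CommRingCat.ofHom (algebraMap A D), CommRingCat.ofHom f.toRingHom, ?_, ?_, ?_⟩
  · change (algebraMap A D).Etale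
    rw [RingHom.etale_algebraMap]
    exact hD
  · ext a
    exact f.commutes a
  · intro P p i hi
    let ρ : D →+* Γ(P, ⊤) := ((Scheme.ΓSpecIso (.of D)).inv ≫ p.appTop).hom
    let _ : Algebra D Γ(P, ⊤) := ρ.toAlgebra
    let L : QA D →ₐ[D] Γ(P, ⊤) := QuadraticAlgebra.lift ⟨i, by
      rw [hi]
      simp⟩
    let τ : B ⟶ Γ(P, ⊤) := CommRingCat.ofHom (L.toRingHom.comp β.toRingHom)
    refine ⟨P.toSpecΓ ≫ Spec.map τ, ?_⟩
    have hτ : φ ≫ τ = CommRingCat.ofHom (algebraMap A D) ≫ (Scheme.ΓSpecIso (.of D)).inv ≫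
        p.appTop := by
      ext a
      change L (β (algebraMap A B a)) = ρ (algebraMap A D a)
      rw [β.commutes]
      exact L.commutes (algebraMap A D a)
    rw [Category.assoc, ← Spec.map_comp, hτ, Spec.map_comp, Spec.map_comp]
    simp only [Category.assoc]
    rw [← Scheme.toSpecΓ_naturality_assoc, ← SpecMap_ΓSpecIso_hom, ← Spec.map_comp_assoc,
      Iso.inv_hom_id, Spec.map_id, Category.id_comp]

/-- `Spec ℝ` -/
abbrev SR : Scheme.{0} := Spec (.of ℝ)
/-- `Spec ℂ` -/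
abbrev SC : Scheme.{0} := Spec (.of ℂ)
/-- `Spec ℂ → Spec ℝ` -/
def cR : SC ⟶ SR := Spec.map (CommRingCat.ofHom (algebraMap ℝ ℂ))

/-- `Spec ℝ` as a scheme over `F` -/
def ptR (F : Type) [Field F] [Algebra F ℝ] : DR F :=
  Over.mk (Spec.map (CommRingCat.ofHom (algebraMap F ℝ)))

lemma range_subset_of_unique {X Y : Scheme.{0}} [Unique X] (f : X ⟶ Y) (U : Set Y)
    (h : f default ∈ U) : Set.range f ⊆ U := by
  rintro _ ⟨x, rfl⟩
  rwa [Unique.eq_default x]

variable {F : Type} [Field F]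

/-- the function `i` on a scheme over `F[i]` -/
def iof {P : Scheme.{0}} (q : P ⟶ SI F) : Γ(P, ⊤) :=
  ((Scheme.ΓSpecIso (.of (QA F))).inv ≫ q.appTop).hom QuadraticAlgebra.omega

lemma iof_mul {P : Scheme.{0}} (q : P ⟶ SI F) : iof q * iof q = -1 := by
  rw [iof, ← map_mul, QuadraticAlgebra.omega_mul_omega_eq_add]
  simp only [neg_smul, one_smul, zero_smul, add_zero, map_neg, map_one]

variable [Algebra F ℝ]

/-- a point of an etale `V → T` over a real point of `T` with values in `ℂ` extends to a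
map from the double of a neighbourhood of the real point. -/
theorem weil_nbhd (T V : DR F) (t : ptR F ⟶ T) (g : V ⟶ T) (hg : Etale g.left)
    (v : SC ⟶ V.left) (hv : v ≫ g.left = cR ≫ t.left) :
    ∃ (W : DR F) (f : W ⟶ T) (w : ptR F ⟶ W), Etale f.left ∧ w ≫ f = t ∧
      ∃ h : TC.obj W ⟶ V, h ≫ g = prT W ≫ f := by
  let tp : SR ⟶ T.left := t.left
  have htp : tp = t.left := rfl
  obtain ⟨U, hU, hxU, -⟩ := exists_isAffineOpen_mem_and_subset (X := T.left)
    (x := tp (default : SR)) (U := ⊤) trivial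
  have hpt : cR (default : SC) = (default : SR) := Subsingleton.elim _ _
  have hy : v (default : SC) ∈ g.left ⁻¹ᵁ U := by
    change g.left (v default) ∈ U
    rw [← Scheme.Hom.comp_apply, hv, ← htp, Scheme.Hom.comp_apply, hpt]
    exact hxU
  obtain ⟨V', hV', hyV, hVU⟩ := exists_isAffineOpen_mem_and_subset hy
  let tl : SR ⟶ Spec Γ(T.left, U) := IsOpenImmersion.lift hU.fromSpec tp (by
    rw [hU.range_fromSpec]
    exact range_subset_of_unique _ _ hxU)
  have htl : tl ≫ hU.fromSpec = tp := IsOpenImmersion.lift_fac _ _ _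
  let vl : SC ⟶ Spec Γ(V.left, V') := IsOpenImmersion.lift hV'.fromSpec v (by
    rw [hV'.range_fromSpec]
    exact range_subset_of_unique _ _ hyV)
  have hvl : vl ≫ hV'.fromSpec = v := IsOpenImmersion.lift_fac _ _ _
  let φ := g.left.appLE U V' hVU
  have hφ : φ.hom.Etale := HasRingHomProperty.appLE (P := @Etale) g.left hg ⟨U, hU⟩ ⟨V', hV'⟩ hVU
  have hφ2 : Spec.map φ ≫ hU.fromSpec = hV'.fromSpec ≫ g.left :=
    IsAffineOpen.SpecMap_appLE_fromSpec g.left hU hV' hVU
  obtain ⟨D, δ, ω, hδ, hδω, hlift⟩ := weil_aff _ _ φ hφ (Spec.preimage tl) (Spec.preimage vl) (by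
    apply Spec.map_injective
    rw [Spec.map_comp, Spec.map_comp, Spec.map_preimage, Spec.map_preimage,
      ← cancel_mono hU.fromSpec, Category.assoc, hφ2, Category.assoc, htl, reassoc_of% hvl]
    exact hv)
  let fl : Spec D ⟶ T.left := Spec.map δ ≫ hU.fromSpec
  let W : DR F := Over.mk (fl ≫ T.hom)
  have hδ' : Etale (Spec.map δ) := (HasRingHomProperty.Spec_iff (P := @Etale)).2 hδ
  have hω : Spec.map ω ≫ fl = tp := by
    simp only [fl]
    rw [← Spec.map_comp_assoc, hδω, Spec.map_preimage, htl]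
  refine ⟨W, Over.homMk fl rfl, Over.homMk (Spec.map ω) ?_, ?_, ?_, ?_⟩
  · have := Over.w t
    change Spec.map ω ≫ fl ≫ T.hom = _
    rw [reassoc_of% hω]
    exact this
  · change Etale (Spec.map δ ≫ hU.fromSpec)
    infer_instance
  · apply Over.OverMorphism.ext
    exact hω
  · obtain ⟨h, hh⟩ := hlift (TC.obj W).left (pullback.fst W.hom cc)
      (iof (pullback.snd W.hom (cc (F := F)))) (iof_mul _)
    have key : (h ≫ hV'.fromSpec) ≫ g.left = pullback.fst W.hom cc ≫ fl := by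
      rw [Category.assoc, ← hφ2, reassoc_of% hh]
    refine ⟨Over.homMk (h ≫ hV'.fromSpec) ?_, ?_⟩
    · rw [← Over.w g, ← Category.assoc, key, Category.assoc]
      exact pullback.condition
    · apply Over.OverMorphism.ext
      exact key

end Pool.Agent.W487.G
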