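import Mathlib
import Pool.Agent.W487.G.Coh
import Pool.Agent.W487.G.Weil

open CategoryTheory Limits Opposite Abelian AlgebraicGeometry

set_option backward.isDefEq.respectTransparency false
set_option linter.unusedSimpArgs false
set_option linter.unusedSectionVars false

noncomputable section

namespace Pool.Agent.W487.G

/-- the class of `0 → A → RR A → KK A → 0` -/
def e1 {F : Type} [Field F] [CharZero F] (A : Sh (SF F)) : Ext (KK A) A 1 := (s1_exact A).extClass
/-- the class of `0 → KK A → RR A → A → 0` -/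
def e2 {F : Type} [Field F] [CharZero F] (A : Sh (SF F)) : Ext A (KK A) 1 := (s2_exact A).extClass

/-- the periodicity class -/
def ee {F : Type} [Field F] [CharZero F] (A : Sh (SF F)) : Ext A A 2 := (e2 A).comp (e1 A) rfl

/-- the powers of the periodicity class -/
def eek {F : Type} [Field F] [CharZero F] (A : Sh (SF F)) : (k : ℕ) → Ext A A (2 * k)
  | 0 => Ext.mk₀ (𝟙 A)
  | k + 1 => (eek A k).comp (ee A) rfl

section
variable {F : Type} [Field F] [CharZero F]

/-- the class of degree `2k` attached to a section of `A` by periodicity -/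
def bet {A : Sh (SF F)} {T : DR F} (k : ℕ) (u : (ZS (SF F)).obj T ⟶ A) :
    Ext ((ZS (SF F)).obj T) A (2 * k) :=
  (Ext.mk₀ u).comp (eek A k) (zero_add _)

lemma bet_zero_eq {A : Sh (SF F)} {T : DR F} (u : (ZS (SF F)).obj T ⟶ A) :
    bet 0 u = Ext.mk₀ u := by
  rw [bet, eek, Ext.mk₀_comp_mk₀, Category.comp_id]

lemma bet_succ {A : Sh (SF F)} {T : DR F} (k : ℕ) (u : (ZS (SF F)).obj T ⟶ A) :
    bet (k + 1) u = (bet k u).comp (ee A) rfl := by
  rw [bet, eek, bet]
  exact (Ext.comp_assoc _ _ _ _ _ (by lia)).symm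

lemma bet_add {A : Sh (SF F)} {T : DR F} (k : ℕ) (u v : (ZS (SF F)).obj T ⟶ A) :
    bet k (u + v) = bet k u + bet k v := by
  simp [bet, Ext.mk₀_add]

lemma bet_zero {A : Sh (SF F)} {T : DR F} (k : ℕ) : bet k (0 : (ZS (SF F)).obj T ⟶ A) = 0 := by
  simp [bet]

lemma bet_norm {A : Sh (SF F)} {T : DR F} (k : ℕ) (z : (ZS (SF F)).obj T ⟶ RR.obj A) :
    bet (k + 1) (z ≫ NN A) = 0 := by
  induction k with
  | zero =>
    have h : (Ext.mk₀ (NN A)).comp (e2 A) (zero_add 1) = 0 := (s2_exact A).comp_extClass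
    rw [bet_succ, bet_zero_eq, ee, ← Ext.comp_assoc _ _ _ (zero_add 1) _ (by lia),
      ← Ext.mk₀_comp_mk₀, Ext.comp_assoc _ _ _ (add_zero 0) (zero_add 1) (by lia), h,
      Ext.comp_zero, Ext.zero_comp]
  | succ k ih =>
    rw [bet_succ, ih, Ext.zero_comp]

lemma bet_two {A : Sh (SF F)} {T : DR F} (k : ℕ) (u : (ZS (SF F)).obj T ⟶ A) :
    bet (k + 1) (u + u) = 0 := by
  have : u + u = (u ≫ etaS A) ≫ NN A := by
    rw [Category.assoc, eta_NN, Preadditive.comp_add, Category.comp_id]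
  rw [this, bet_norm]

lemma res_bet {A : Sh (SF F)} {T T' : DR F} (f : T' ⟶ T) (k : ℕ) (u : (ZS (SF F)).obj T ⟶ A) :
    res f (bet k u) = bet k ((ZS (SF F)).map f ≫ u) := by
  rw [bet, res_postcomp, res_mk₀]
  rfl

end

section
variable {F : Type} [Field F] [CharZero F] [Algebra F ℝ]

/-- a class of positive degree with coefficients in `RR B` vanishes near a real point. -/
theorem loc_vanish (B : Sh (SF F)) (n : ℕ) (T : DR F) (t : ptR F ⟶ T)
    (c : Ext ((ZS (SF F)).obj T) (RR.obj B) (n + 1)) :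
    ∃ (W : DR F) (f : W ⟶ T) (w : ptR F ⟶ W), Etale f.left ∧ w ≫ f = t ∧ res f c = 0 := by
  obtain ⟨R, hR, hR'⟩ := efface n (RR.obj B) T c
  obtain ⟨ι, X, g, hg1, hg2, hg3⟩ := exists_cover hR
  let tp : SR ⟶ T.left := t.left
  obtain ⟨i, y, hy⟩ := hg2 (tp (default : SR))
  have : Etale (g i).left := hg1 i
  obtain ⟨v, hv, -⟩ := Scheme.exists_fac_of_etale_of_isSepClosed (g i).left (cR ≫ tp) y (by
    rw [hy, Scheme.Hom.comp_apply]
    congr 1
    exact Subsingleton.elim (α := SR) _ _)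
  obtain ⟨W, f, w, hf, hw, h, hh⟩ := weil_nbhd T (X i) t (g i) (hg1 i) v hv
  refine ⟨W, f, w, hf, hw, ?_⟩
  have h1 : res (prT W) (res f c) = 0 := by
    rw [← res_comp, ← hh, res_comp, hR' _ _ (hg3 i), res_zero]
  have h2 := vanish_eta (n + 1) _ _ _ h1
  have h3 : (Ext.mk₀ (etaS (RR.obj B))).comp (Ext.mk₀ (rho B)) (add_zero 0) =
      Ext.mk₀ (𝟙 (RR.obj B)) := by
    rw [Ext.mk₀_comp_mk₀, etaS_rho]
  rw [← Ext.comp_mk₀_id (res f c), ← h3, ← Ext.comp_assoc _ _ _ (add_zero (n + 1)) _ (by lia), h2,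
    Ext.zero_comp]

lemma pt_vanish (B : Sh (SF F)) (n : ℕ) (c : Ext ((ZS (SF F)).obj (ptR F)) (RR.obj B) (n + 1)) :
    c = 0 := by
  obtain ⟨W, f, w, -, hw, h⟩ := loc_vanish B n (ptR F) (𝟙 _) c
  rw [← res_id c, ← hw, res_comp, h, res_zero]

/-- near a real point every class of even degree comes from a section. -/
theorem loc_bet (A : Sh (SF F)) (k : ℕ) : ∀ (T : DR F) (t : ptR F ⟶ T)
    (b : Ext ((ZS (SF F)).obj T) A (2 * k)),
    ∃ (W : DR F) (f : W ⟶ T) (w : ptR F ⟶ W), Etale f.left ∧ w ≫ f = t ∧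
      ∃ u : (ZS (SF F)).obj W ⟶ A, res f b = bet k u := by
  induction k with
  | zero =>
    intro T t b
    obtain ⟨u, rfl⟩ := (Ext.mk₀_bijective _ _).2 b
    refine ⟨T, 𝟙 T, t, ?_, Category.comp_id _, u, ?_⟩
    · change Etale (𝟙 T.left)
      infer_instance
    · rw [res_id, bet_zero_eq]
  | succ k ih =>
    intro T t b
    obtain ⟨W1, f1, w1, hf1, hw1, h1⟩ := loc_vanish A (2 * k + 1) T t
      (b.comp (Ext.mk₀ (etaS A)) (add_zero _))
    rw [res_postcomp] at h1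
    obtain ⟨y, hy⟩ := Ext.covariant_sequence_exact₁ _ (s1_exact A) (res f1 b) h1
      (n₀ := 2 * k + 1) rfl
    obtain ⟨W2, f2, w2, hf2, hw2, h2⟩ := loc_vanish A (2 * k) W1 w1
      (y.comp (Ext.mk₀ (KKi A)) (add_zero _))
    rw [res_postcomp] at h2
    obtain ⟨z, hz⟩ := Ext.covariant_sequence_exact₁ _ (s2_exact A) (res f2 y) h2
      (n₀ := 2 * k) rfl
    obtain ⟨W3, f3, w3, hf3, hw3, u, hu⟩ := ih W2 w2 z
    refine ⟨W3, f3 ≫ f2 ≫ f1, w3, ?_, ?_, u, ?_⟩
    · rw [Over.comp_left, Over.comp_left]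
      infer_instance
    · rw [← Category.assoc, hw3, ← Category.assoc, hw2, hw1]
    · rw [bet_succ, ← hu, res_comp, res_comp, ← hy, res_postcomp, ← hz, res_postcomp,
        res_postcomp, ee]
      exact Ext.comp_assoc _ _ _ _ _ (by lia)

end

end Pool.Agent.W487.G
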