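import Mathlib
import Pool.Agent.W487.GmSheaf
import Pool.Agent.W487.G.Loc

open CategoryTheory Limits Opposite Abelian AlgebraicGeometry

set_option backward.isDefEq.respectTransparency false
set_option linter.unusedSimpArgs false
set_option linter.unusedSectionVars false

noncomputable section

namespace Pool.Agent.W487.G

/-- the pullback of units -/
def upull {X Y : Scheme.{0}} (f : X ⟶ Y) : Γ(Y, ⊤)ˣ →* Γ(X, ⊤)ˣ := Units.map (f.appTop.hom : _ →* _)

@[simp] lemma upull_coe {X Y : Scheme.{0}} (f : X ⟶ Y) (u : Γ(Y, ⊤)ˣ) :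
    (upull f u : Γ(X, ⊤)) = f.appTop.hom u := rfl

lemma upull_comp {X Y Z : Scheme.{0}} (f : X ⟶ Y) (g : Y ⟶ Z) (u : Γ(Z, ⊤)ˣ) :
    upull (f ≫ g) u = upull f (upull g u) := by
  ext
  simp

lemma upull_id {X : Scheme.{0}} (u : Γ(X, ⊤)ˣ) : upull (𝟙 X) u = u := by
  ext
  simp

variable {S : Scheme.{0}}

/-- the section of `G_m` given by a unit -/
def gsec {T : Over S} (u : Γ(T.left, ⊤)ˣ) : (ZS S).obj T ⟶ Gm S :=
  ofSec (T := T) (A := Gm S) (ULift.up (Additive.ofMul u))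

lemma gsec_surj {T : Over S} (x : (ZS S).obj T ⟶ Gm S) :
    ∃ u : Γ(T.left, ⊤)ˣ, x = gsec u := by
  refine ⟨Additive.toMul (ULift.down (sec x : ULift.{1} (Additive Γ(T.left, ⊤)ˣ))), ?_⟩
  apply sec_injective
  rw [gsec, sec_ofSec]
  rfl

lemma gsec_mul {T : Over S} (u v : Γ(T.left, ⊤)ˣ) : gsec (u * v) = gsec u + gsec v := by
  apply sec_injective
  rw [sec_add]
  simp only [gsec, sec_ofSec]
  rfl

lemma gsec_one {T : Over S} : gsec (T := T) 1 = 0 := by
  apply sec_injective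
  simp only [gsec, sec_ofSec]
  rfl

lemma gsec_map {T T' : Over S} (f : T' ⟶ T) (u : Γ(T.left, ⊤)ˣ) :
    (ZS S).map f ≫ gsec u = gsec (upull f.left u) := by
  apply sec_injective
  rw [sec_map_comp]
  simp only [gsec, sec_ofSec]
  rfl

lemma gsec_injective {T : Over S} {u v : Γ(T.left, ⊤)ˣ} (h : gsec u = gsec v) : u = v := by
  have := congrArg sec h
  simp only [gsec, sec_ofSec] at this
  exact congrArg (fun z : ULift.{1} (Additive Γ(T.left, ⊤)ˣ) => Additive.toMul z.down) this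

/-- the pair `(x² - v, 1)` -/
def sqPair {A : Type} [CommRing A] (v : Aˣ) (h2 : IsUnit (2 : A)) : StandardEtalePair A where
  f := Polynomial.X ^ 2 - Polynomial.C (v : A)
  monic_f := Polynomial.monic_X_pow_sub_C _ (by norm_num)
  g := 1
  cond := by
    obtain ⟨w, hw⟩ := h2
    refine ⟨Polynomial.C ((v⁻¹ : Aˣ) * (w⁻¹ : Aˣ) : A) * Polynomial.X, - Polynomial.C ((v⁻¹ : Aˣ) : A),
      1, ?_⟩
    have h3 : (Polynomial.C (v : A) * Polynomial.C ((v⁻¹ : Aˣ) : A) : Polynomial A) = 1 := by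
      rw [← map_mul]; simp
    have h4 : (2 * Polynomial.C ((w⁻¹ : Aˣ) : A) : Polynomial A) = 1 := by
      have : (2 : Polynomial A) = Polynomial.C (2 : A) := rfl
      rw [this, ← map_mul, ← hw]
      simp
    simp only [Polynomial.derivative_sub, Polynomial.derivative_C, sub_zero, one_pow, map_mul]
    rw [Polynomial.derivative_X_pow]
    simp only [Nat.cast_ofNat, Polynomial.C_ofNat]
    linear_combination (Polynomial.C ((v⁻¹ : Aˣ) : A) * Polynomial.X ^ 2) * h4 + h3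

variable {F : Type} [Field F] [CharZero F] [Algebra F ℝ]

/-- the value of a unit at a real point -/
def rval {X : Scheme.{0}} (t : SR ⟶ X) (v : Γ(X, ⊤)ˣ) : ℝ :=
  (Scheme.ΓSpecIso (.of ℝ)).hom.hom (upull t v : Γ(SR, ⊤))

lemma rval_ne_zero {X : Scheme.{0}} (t : SR ⟶ X) (v : Γ(X, ⊤)ˣ) : rval t v ≠ 0 :=
  ((upull t v).isUnit.map (Scheme.ΓSpecIso (.of ℝ)).hom.hom).ne_zero

lemma rval_neg {X : Scheme.{0}} (t : SR ⟶ X) (v : Γ(X, ⊤)ˣ) : rval t (-v) = - rval t v := by
  simp only [rval, upull_coe, Units.val_neg, map_neg]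

/-- a unit with positive value at a real point is a square near that point. -/
theorem sqrt_nbhd (T : DR F) (t : ptR F ⟶ T) (v : Γ(T.left, ⊤)ˣ) (hv : 0 < rval t.left v) :
    ∃ (W : DR F) (f : W ⟶ T) (w : ptR F ⟶ W), Etale f.left ∧ w ≫ f = t ∧
      ∃ y : Γ(W.left, ⊤)ˣ, upull f.left v = y * y := by
  let tp : SR ⟶ T.left := t.left
  obtain ⟨U, hU, hxU, -⟩ := exists_isAffineOpen_mem_and_subset (X := T.left)
    (x := tp (default : SR)) (U := ⊤) trivial
  let tl : SR ⟶ Spec Γ(T.left, U) := IsOpenImmersion.lift hU.fromSpec tp (by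
    rw [hU.range_fromSpec]
    exact range_subset_of_unique _ _ hxU)
  have htl : tl ≫ hU.fromSpec = tp := IsOpenImmersion.lift_fac _ _ _
  let A := Γ(T.left, U)
  let r : A ⟶ .of ℝ := Spec.preimage tl
  have hr : Spec.map r = tl := Spec.map_preimage tl
  let vA : (A : Type)ˣ := Units.map ((Scheme.ΓSpecIso A).hom.hom : _ →* _) (upull hU.fromSpec v)
  let st : CommRingCat.of F ⟶ A := Spec.preimage (hU.fromSpec ≫ T.hom)
  have h2 : IsUnit (2 : A) := by
    have h : IsUnit (2 : F) := IsUnit.mk0 _ two_ne_zero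
    let st' : F →+* A := st.hom
    have h' := h.map st'
    have h'' : st' 2 = 2 := map_ofNat st' 2
    rwa [h''] at h'
  let P := sqPair vA h2
  let _ : Algebra A ℝ := r.hom.toAlgebra
  have hrv : r.hom vA = rval tp v := by
    have e1 := Scheme.ΓSpecIso_naturality r
    have e2 := congr(($e1).hom (upull hU.fromSpec v))
    have e3 : (Spec.map r).appTop.hom (upull hU.fromSpec v : Γ(Spec A, ⊤)) =
        (upull tp v : Γ(SR, ⊤)) := by
      rw [hr, ← upull_coe, ← upull_comp, htl]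
    refine Eq.trans e2.symm ?_
    change (Scheme.ΓSpecIso (.of ℝ)).hom.hom ((Spec.map r).appTop.hom
      (upull hU.fromSpec v : Γ(Spec A, ⊤))) = rval tp v
    rw [e3]
    rfl
  have hv' : 0 < rval tp v := hv
  let ω : P.Ring →ₐ[A] ℝ := P.lift (Real.sqrt (rval tp v)) ⟨by
    simp only [P, sqPair, map_sub, map_pow, Polynomial.aeval_X, Polynomial.aeval_C]
    change Real.sqrt (rval tp v) ^ 2 - r.hom vA = 0
    rw [hrv, Real.sq_sqrt hv'.le, sub_self], by simp [P, sqPair]⟩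
  let δ : A ⟶ .of P.Ring := CommRingCat.ofHom (algebraMap A P.Ring)
  let ω' : CommRingCat.of P.Ring ⟶ .of ℝ := CommRingCat.ofHom ω.toRingHom
  have hδω : δ ≫ ω' = r := by
    ext a
    exact ω.commutes a
  let fl : Spec (.of P.Ring) ⟶ T.left := Spec.map δ ≫ hU.fromSpec
  let W : DR F := Over.mk (fl ≫ T.hom)
  have hδ' : Etale (Spec.map δ) := (HasRingHomProperty.Spec_iff (P := @Etale)).2 (by
    change (algebraMap A P.Ring).Etale
    rw [RingHom.etale_algebraMap]
    infer_instance)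
  have hω : Spec.map ω' ≫ fl = tp := by
    simp only [fl]
    rw [← Spec.map_comp_assoc, hδω, hr, htl]
  have hX : P.X ^ 2 = algebraMap A P.Ring vA := by
    have h := P.hasMap_X.1
    change Polynomial.aeval P.X (Polynomial.X ^ 2 - Polynomial.C (vA : A)) = 0 at h
    rw [map_sub, map_pow, Polynomial.aeval_X, Polynomial.aeval_C, sub_eq_zero] at h
    exact h
  have hXu : IsUnit P.X := by
    rw [← isUnit_pow_iff (n := 2) (by norm_num), hX]
    exact vA.isUnit.map _
  let yy : Γ(Spec (.of P.Ring), ⊤)ˣ :=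
    Units.map ((Scheme.ΓSpecIso (.of P.Ring)).inv.hom : _ →* _) hXu.unit
  refine ⟨W, Over.homMk fl rfl, Over.homMk (Spec.map ω') ?_, ?_, ?_, yy, ?_⟩
  · have := Over.w t
    change Spec.map ω' ≫ fl ≫ T.hom = _
    rw [reassoc_of% hω]
    exact this
  · change Etale (Spec.map δ ≫ hU.fromSpec)
    infer_instance
  · apply Over.OverMorphism.ext
    exact hω
  · change upull fl v = _
    rw [upull_comp]
    apply Units.ext
    have e1 := congr(($(Scheme.ΓSpecIso_naturality δ)).hom (upull hU.fromSpec v))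
    have e2 : (upull (Spec.map δ) (upull hU.fromSpec v) : Γ(Spec (.of P.Ring), ⊤)) =
        (Scheme.ΓSpecIso (.of P.Ring)).inv.hom (algebraMap A P.Ring vA) := by
      have : (Scheme.ΓSpecIso (.of P.Ring)).hom.hom
        ((Spec.map δ).appTop.hom (upull hU.fromSpec v : Γ(Spec A, ⊤))) = algebraMap A P.Ring vA := e1
      rw [← this]
      simp
    rw [e2, ← hX, pow_two, map_mul]
    rfl

lemma upull_neg_one {X Y : Scheme.{0}} (f : X ⟶ Y) : upull f (-1) = -1 := by
  ext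
  simp

/-- near a real point, a unit is up to sign a square. -/
theorem sign_nbhd (T : DR F) (t : ptR F ⟶ T) (u : Γ(T.left, ⊤)ˣ) :
    ∃ (W : DR F) (f : W ⟶ T) (w : ptR F ⟶ W), Etale f.left ∧ w ≫ f = t ∧
      ∃ y : Γ(W.left, ⊤)ˣ, upull f.left u = y * y ∨ upull f.left u = (-1) * (y * y) := by
  rcases lt_or_gt_of_ne (rval_ne_zero t.left u) with h | h
  · obtain ⟨W, f, w, hf, hw, y, hy⟩ := sqrt_nbhd T t (-u) (by rw [rval_neg]; exact neg_pos.2 h)
    refine ⟨W, f, w, hf, hw, y, Or.inr ?_⟩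
    rw [← hy, ← neg_one_mul u, map_mul, upull_neg_one]
    ext
    simp
  · obtain ⟨W, f, w, hf, hw, y, hy⟩ := sqrt_nbhd T t u h
    exact ⟨W, f, w, hf, hw, y, Or.inl hy⟩

/-- near a real point, every class of positive even degree in `G_m` is constant on the real
points. -/
theorem loc_const (k : ℕ) (T : DR F) (t : ptR F ⟶ T)
    (b : Ext ((ZS (SF F)).obj T) (Gm (SF F)) (2 * (k + 1))) :
    ∃ (W : DR F) (f : W ⟶ T) (w : ptR F ⟶ W), Etale f.left ∧ w ≫ f = t ∧
      ∀ w' : ptR F ⟶ W, res (w' ≫ f) b = res t b := by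
  obtain ⟨W1, f1, w1, hf1, hw1, x, hx⟩ := loc_bet (Gm (SF F)) (k + 1) T t b
  obtain ⟨u, rfl⟩ := gsec_surj x
  obtain ⟨W2, f2, w2, hf2, hw2, y, hy⟩ := sign_nbhd W1 w1 u
  have h0 : bet (k + 1) (gsec (T := W2) (y * y)) = 0 := by
    rw [gsec_mul, bet_two]
  have key : ∃ c : Ext ((ZS (SF F)).obj (ptR F)) (Gm (SF F)) (2 * (k + 1)),
      ∀ w' : ptR F ⟶ W2, res (w' ≫ f2 ≫ f1) b = c := by
    rcases hy with hy | hy
    · refine ⟨0, fun w' => ?_⟩
      rw [res_comp, res_comp, hx, res_bet, gsec_map, hy, h0, res_zero]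
    · refine ⟨bet (k + 1) (gsec (T := ptR F) (-1)), fun w' => ?_⟩
      rw [res_comp, res_comp, hx, res_bet, gsec_map, hy, gsec_mul, bet_add, h0, add_zero, res_bet,
        gsec_map, upull_neg_one]
  obtain ⟨c, hc⟩ := key
  refine ⟨W2, f2 ≫ f1, w2, ?_, ?_, ?_⟩
  · rw [Over.comp_left]
    infer_instance
  · rw [← Category.assoc, hw2, hw1]
  · intro w'
    rw [hc]
    have h3 : w2 ≫ f2 ≫ f1 = t := by rw [← Category.assoc, hw2, hw1]
    rw [← h3, hc]

end Pool.Agent.W487.G
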