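import Mathlib
import Pool.Agent.W487.G.Unit

open CategoryTheory Limits Opposite Abelian AlgebraicGeometry

set_option backward.isDefEq.respectTransparency false
set_option linter.unusedSimpArgs false
set_option linter.unusedSectionVars false

noncomputable section

namespace Pool.Agent.W487.G

/-- complex conjugation -/
def cjC : SC ⟶ SC := Spec.map (CommRingCat.ofHom (starRingEnd ℂ))

lemma cjC_cR : cjC ≫ cR = cR := by
  rw [cjC, cR, ← Spec.map_comp]
  congr 1
  ext x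
  simp

lemma norm_ne (z : Γ(SC, ⊤)ˣ) : z * upull cjC z ≠ -1 := by
  intro h
  let w : ℂ := (Scheme.ΓSpecIso (.of ℂ)).hom.hom (z : Γ(SC, ⊤))
  have h1 : (Scheme.ΓSpecIso (.of ℂ)).hom.hom (cjC.appTop.hom (z : Γ(SC, ⊤))) =
      (starRingEnd ℂ) w :=
    congr(($(Scheme.ΓSpecIso_naturality (CommRingCat.ofHom (starRingEnd ℂ)))).hom
      (z : Γ(SC, ⊤)))
  have h2 := congrArg (fun y : Γ(SC, ⊤)ˣ => (Scheme.ΓSpecIso (.of ℂ)).hom.hom
    (y : Γ(SC, ⊤))) h
  have h3 : w * (starRingEnd ℂ) w = -1 := by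
    have h4 : (Scheme.ΓSpecIso (.of ℂ)).hom.hom ((z : Γ(SC, ⊤)) * cjC.appTop.hom (z : Γ(SC, ⊤))) =
        (Scheme.ΓSpecIso (.of ℂ)).hom.hom (-1 : Γ(SC, ⊤)) := h2
    rw [map_mul, h1, map_neg, map_one] at h4
    exact h4
  rw [Complex.mul_conj] at h3
  have h5 : (Complex.normSq w : ℂ).re = (-1 : ℂ).re := by rw [h3]
  rw [Complex.ofReal_re] at h5
  have h6 : (0 : ℝ) ≤ Complex.normSq w := Complex.normSq_nonneg w
  rw [h5] at h6
  norm_num at h6

variable {F : Type} [Field F] [CharZero F] [Algebra F ℝ]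

variable (F) in
/-- `F[i] → ℂ` -/
def QAtoC : QA F →+* ℂ where
  toFun z := ⟨algebraMap F ℝ z.re, algebraMap F ℝ z.im⟩
  map_one' := Complex.ext (map_one (algebraMap F ℝ)) (map_zero (algebraMap F ℝ))
  map_zero' := by apply Complex.ext <;> simp
  map_add' x y := by apply Complex.ext <;> simp
  map_mul' x y := by
    apply Complex.ext
    · simp; ring
    · simp

variable (F) in
/-- `Spec ℂ → Spec F[i]` -/
def iC : SC ⟶ SI F := Spec.map (CommRingCat.ofHom (QAtoC F))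

lemma iC_cc : iC F ≫ cc = cR ≫ (ptR F).hom := by
  change Spec.map _ ≫ Spec.map _ = Spec.map _ ≫ Spec.map _
  rw [← Spec.map_comp, ← Spec.map_comp]
  congr 1
  ext1
  apply RingHom.ext
  intro x
  change QAtoC F (algebraMap F (QA F) x) = algebraMap ℝ ℂ (algebraMap F ℝ x)
  apply Complex.ext <;> simp [QAtoC]

lemma iC_cj : iC F ≫ cj = cjC ≫ iC F := by
  change Spec.map _ ≫ Spec.map _ = Spec.map _ ≫ Spec.map _
  rw [← Spec.map_comp, ← Spec.map_comp]
  congr 1
  ext1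
  apply RingHom.ext
  intro x
  change QAtoC F (star x) = (starRingEnd ℂ) (QAtoC F x)
  apply Complex.ext <;> simp [QAtoC]

variable (F) in
/-- the natural map `Spec ℂ → Spec ℝ ×_F Spec F[i]` -/
def sC : SC ⟶ pullback (ptR F).hom cc := pullback.lift cR (iC F) iC_cc.symm

lemma sC_sgL : sC F ≫ sgL (ptR F).hom = cjC ≫ sC F := by
  apply pullback.hom_ext
  · simp only [Category.assoc, sgL_fst, sC, pullback.lift_fst, cjC_cR]
  · simp only [Category.assoc, sgL_snd, sC, pullback.lift_snd, pullback.lift_snd_assoc, iC_cj]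

/-- `-1` is not a norm -/
theorem bet_neg_one (k : ℕ) : bet (k + 1) (gsec (T := ptR F) (-1 : Γ((ptR F).left, ⊤)ˣ)) ≠ 0 := by
  set x := gsec (T := ptR F) (-1 : Γ((ptR F).left, ⊤)ˣ) with hx
  induction k with
  | zero =>
    intro h
    have h1 : ((Ext.mk₀ x).comp (e2 (Gm (SF F))) (zero_add 1)).comp (e1 (Gm (SF F))) rfl = 0 := by
      rw [← h, bet_succ, bet_zero_eq, ee]
      exact Ext.comp_assoc _ _ _ _ _ (by lia)
    obtain ⟨z, hz⟩ := Ext.covariant_sequence_exact₃ _ (s1_exact (Gm (SF F))) _ (n₁ := 2) rfl h1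
    have hz0 : z = 0 := pt_vanish (Gm (SF F)) 0 z
    rw [hz0, Ext.zero_comp] at hz
    obtain ⟨y, hy⟩ := Ext.covariant_sequence_exact₃ _ (s2_exact (Gm (SF F))) _ (n₁ := 1) rfl
      hz.symm
    obtain ⟨y, rfl⟩ := (Ext.mk₀_bijective _ _).2 y
    rw [Ext.mk₀_comp_mk₀] at hy
    have hy' : y ≫ NN (Gm (SF F)) = x := (Ext.mk₀_bijective _ _).1 hy
    have h2 : y ≫ (𝟙 (RR.obj (Gm (SF F))) + sgS (Gm (SF F))) = x ≫ etaS (Gm (SF F)) := by
      rw [← NN_eta, ← hy', Category.assoc]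
    have h3 := congrArg sec h2
    let zz : Γ(pullback (ptR F).hom cc, ⊤)ˣ :=
      Additive.toMul (ULift.down (sec y : ULift.{1} (Additive Γ((TC.obj (ptR F)).left, ⊤)ˣ)))
    have h4 : zz * upull (sgL (ptR F).hom) zz = upull (pullback.fst (ptR F).hom cc) (-1) := by
      rw [sec_comp, sec_comp, hx, gsec, sec_ofSec] at h3
      exact congrArg (fun z : ULift.{1} (Additive Γ((TC.obj (ptR F)).left, ⊤)ˣ) =>
        Additive.toMul z.down) h3
    have h5 := congrArg (upull (sC F)) h4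
    rw [map_mul, ← upull_comp, sC_sgL, upull_comp, upull_neg_one, upull_neg_one] at h5
    exact norm_ne _ h5
  | succ k ih =>
    intro h
    apply ih
    have h1 : ((bet (k + 1) x).comp (e2 (Gm (SF F))) (rfl : _ = 2 * (k + 1) + 1)).comp
        (e1 (Gm (SF F))) rfl = 0 := by
      rw [← h, bet_succ (k + 1), ee]
      exact Ext.comp_assoc _ _ _ _ _ (by lia)
    obtain ⟨z, hz⟩ := Ext.covariant_sequence_exact₃ _ (s1_exact (Gm (SF F))) _
      (n₁ := 2 * (k + 1) + 1 + 1) rfl h1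
    have hz0 : z = 0 := pt_vanish (Gm (SF F)) (2 * (k + 1)) z
    rw [hz0, Ext.zero_comp] at hz
    obtain ⟨y, hy⟩ := Ext.covariant_sequence_exact₃ _ (s2_exact (Gm (SF F))) _
      (n₁ := 2 * (k + 1) + 1) rfl hz.symm
    have hy0 : y = 0 := pt_vanish (Gm (SF F)) (2 * k + 1) y
    rw [← hy, hy0, Ext.zero_comp]

end Pool.Agent.W487.G
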