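import Mathlib
import Pool.Agent.W487.Ivt
import Pool.Agent.W487.G.Neg

open CategoryTheory Limits Opposite Abelian AlgebraicGeometry

set_option backward.isDefEq.respectTransparency false
set_option linter.unusedSimpArgs false
set_option linter.unusedSectionVars false

noncomputable section

namespace Pool.Agent.W487.G

open Polynomial Filter Topology

/-- the affine line over `F` -/
def A1 (F : Type) [Field F] : DR F :=
  Over.mk (Spec.map (CommRingCat.ofHom (Polynomial.C : F →+* F[X])))

variable {F : Type} [Field F] [CharZero F] [Algebra F ℝ]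

variable (F) in
/-- evaluation of polynomials over `F` at a real number -/
def evR (x : ℝ) : F[X] →+* ℝ := (Polynomial.aeval (R := F) x).toRingHom

/-- real points of the affine line -/
def ptA (x : ℝ) : ptR F ⟶ A1 F := Over.homMk (Spec.map (CommRingCat.ofHom (evR F x))) (by
  change Spec.map _ ≫ Spec.map _ = Spec.map _
  rw [← Spec.map_comp, ← CommRingCat.ofHom_comp]
  congr 2
  ext r
  simp [evR])

variable (F) in
/-- polynomials in two variables over `F` as real ones -/
def mR : F[X][X] →+* ℝ[X][X] := Polynomial.mapRingHom (Polynomial.mapRingHom (algebraMap F ℝ))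

lemma aeval_eq_evalEval (x y : ℝ) (p : F[X][X]) :
    letI : Algebra F[X] ℝ := (evR F x).toAlgebra
    aeval y p = (mR F p).evalEval x y := by
  letI : Algebra F[X] ℝ := (evR F x).toAlgebra
  rw [← eval₂_evalRingHom, mR, Polynomial.coe_mapRingHom, Polynomial.eval₂_map]
  change eval₂ (evR F x) y p = _
  congr 1
  apply Polynomial.ringHom_ext
  · intro r
    simp [evR]
  · simp [evR]

lemma mR_derivative (p : F[X][X]) : mR F (derivative p) = derivative (mR F p) := by
  simp only [mR, Polynomial.coe_mapRingHom, Polynomial.derivative_map]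

lemma alg_near (B : Type) [CommRing B] [Algebra F[X] B] [Algebra.Etale F[X] B] (x₀ : ℝ)
    (ω : B →+* ℝ) (hω : ω.comp (algebraMap F[X] B) = evR F x₀) :
    ∀ᶠ x in 𝓝 x₀, ∃ ω' : B →+* ℝ, ω'.comp (algebraMap F[X] B) = evR F x := by
  have hQ : (RingHom.ker ω).IsPrime := RingHom.ker_isPrime ω
  have : Algebra.IsEtaleAt F[X] (RingHom.ker ω) := inferInstance
  obtain ⟨b, hb, hst⟩ := Algebra.IsEtaleAt.exists_isStandardEtale (R := F[X]) (RingHom.ker ω)
  obtain ⟨P⟩ := hst.nonempty_standardEtalePresentation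
  have hbu : IsUnit (ω b) := by
    rw [isUnit_iff_ne_zero]
    exact hb
  let ω2 : Localization.Away b →+* ℝ := IsLocalization.Away.lift b hbu
  have hω2 : ω2.comp (algebraMap B (Localization.Away b)) = ω :=
    IsLocalization.Away.lift_comp b hbu
  obtain ⟨y₀, h1, h2, h3⟩ : ∃ y₀ : ℝ, (mR F P.f).evalEval x₀ y₀ = 0 ∧
      (derivative (mR F P.f)).evalEval x₀ y₀ ≠ 0 ∧ (mR F P.g).evalEval x₀ y₀ ≠ 0 := by
    let _ : Algebra F[X] ℝ := (evR F x₀).toAlgebra
    let ω3 : Localization.Away b →ₐ[F[X]] ℝ :=
      { toRingHom := ω2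
        commutes' := fun r => by
          have e1 : algebraMap F[X] (Localization.Away b) r =
            algebraMap B (Localization.Away b) (algebraMap F[X] B r) :=
            IsScalarTower.algebraMap_apply _ _ _ _
          change ω2 (algebraMap F[X] (Localization.Away b) r) = evR F x₀ r
          rw [e1, ← hω, ← hω2]
          rfl }
    have hm := P.hasMap.map ω3
    have hd := hm.isUnit_derivative_f
    refine ⟨ω3 P.x, ?_, ?_, ?_⟩
    · rw [← aeval_eq_evalEval]
      exact hm.1
    · rw [← mR_derivative, ← aeval_eq_evalEval]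
      exact hd.ne_zero
    · rw [← aeval_eq_evalEval]
      exact hm.2.ne_zero
  filter_upwards [root_near (mR F P.f) (mR F P.g) x₀ y₀ h1 h2 h3] with x hx
  obtain ⟨y, hy1, hy2⟩ := hx
  let _ : Algebra F[X] ℝ := (evR F x).toAlgebra
  have hm : P.P.HasMap y := by
    refine ⟨?_, ?_⟩
    · exact (aeval_eq_evalEval x y P.f).trans hy1
    · rw [isUnit_iff_ne_zero]
      exact fun h => hy2 ((aeval_eq_evalEval x y P.g).symm.trans h)
  let τ : Localization.Away b →ₐ[F[X]] ℝ := (P.P.lift y hm).comp P.equivRing.toAlgHom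
  refine ⟨τ.toRingHom.comp (algebraMap B (Localization.Away b)), ?_⟩
  rw [RingHom.comp_assoc, ← IsScalarTower.algebraMap_eq]
  exact τ.comp_algebraMap

/-- real points of the line near a liftable one lift to the same etale neighbourhood. -/
theorem lift_near (W : DR F) (f : W ⟶ A1 F) (hf : Etale f.left) (x₀ : ℝ) (w : ptR F ⟶ W)
    (hw : w ≫ f = ptA x₀) : ∀ᶠ x in 𝓝 x₀, ∃ w' : ptR F ⟶ W, w' ≫ f = ptA x := by
  let wp : SR ⟶ W.left := w.left
  obtain ⟨U, hU, hxU, -⟩ := exists_isAffineOpen_mem_and_subset (X := W.left)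
    (x := wp (default : SR)) (U := ⊤) trivial
  let tl : SR ⟶ Spec Γ(W.left, U) := IsOpenImmersion.lift hU.fromSpec wp (by
    rw [hU.range_fromSpec]
    exact range_subset_of_unique _ _ hxU)
  have htl : tl ≫ hU.fromSpec = wp := IsOpenImmersion.lift_fac _ _ _
  let ψ : CommRingCat.of F[X] ⟶ Γ(W.left, U) := Spec.preimage (hU.fromSpec ≫ f.left)
  have hψ : Spec.map ψ = hU.fromSpec ≫ f.left := Spec.map_preimage _
  have hψe : ψ.hom.Etale := by
    rw [← HasRingHomProperty.Spec_iff (P := @Etale), hψ]
    infer_instance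
  let _ : Algebra F[X] Γ(W.left, U) := ψ.hom.toAlgebra
  have : Algebra.Etale F[X] Γ(W.left, U) := hψe
  let ω : Γ(W.left, U) ⟶ .of ℝ := Spec.preimage tl
  have hω : Spec.map ω = tl := Spec.map_preimage _
  have key : ψ ≫ ω = CommRingCat.ofHom (evR F x₀) := by
    apply Spec.map_injective
    rw [Spec.map_comp, hω, hψ, reassoc_of% htl]
    exact congrArg (fun z => z.left) hw
  have h := alg_near Γ(W.left, U) x₀ ω.hom (congrArg CommRingCat.Hom.hom key)
  filter_upwards [h] with x hx
  obtain ⟨ω', hω'⟩ := hx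
  have h1 : (Spec.map (CommRingCat.ofHom ω') ≫ hU.fromSpec) ≫ f.left =
      Spec.map (CommRingCat.ofHom (evR F x)) := by
    rw [Category.assoc, ← hψ, ← Spec.map_comp, Spec.map_inj]
    ext1
    exact hω'
  refine ⟨Over.homMk (Spec.map (CommRingCat.ofHom ω') ≫ hU.fromSpec) ?_, ?_⟩
  · rw [← Over.w f, ← Category.assoc, h1]
    exact Over.w (ptA (F := F) x)
  · apply Over.OverMorphism.ext
    exact h1

/-- classes of positive even degree on an open part of the line are constant on real points -/
theorem line_const (k : ℕ) (T : DR F) (j : T ⟶ A1 F) (hj : Etale j.left) [Mono j]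
    (p : ℝ → (ptR F ⟶ T)) (hp : ∀ x, p x ≫ j = ptA x)
    (b : Ext ((ZS (SF F)).obj T) (Gm (SF F)) (2 * (k + 1))) (x y : ℝ) :
    res (p x) b = res (p y) b := by
  have h : IsLocallyConstant (fun x : ℝ => res (p x) b) := by
    rw [IsLocallyConstant.iff_eventually_eq]
    intro x₀
    obtain ⟨W, f, w, hf, hw, h⟩ := loc_const k T (p x₀) b
    filter_upwards [lift_near W (f ≫ j) (by rw [Over.comp_left]; infer_instance) x₀ w
      (by rw [← hp, ← hw, Category.assoc])] with x hx
    obtain ⟨w', hw'⟩ := hx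
    have h2 : w' ≫ f = p x := by
      rw [← cancel_mono j, hp, ← hw', Category.assoc]
    rw [← h2, h]
  exact h.apply_eq_of_preconnectedSpace x y

end Pool.Agent.W487.G
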