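import Mathlib
import Pool.Agent.W487.G.Conn

open CategoryTheory Limits Opposite AlgebraicGeometry

set_option backward.isDefEq.respectTransparency false
set_option linter.unusedSimpArgs false
set_option linter.unusedSectionVars false

noncomputable section

namespace Pool.Agent.W487.G

/-- the grading of `F[X₀, X₁]` by the degree -/
abbrev gr (F : Type) [Field F] : ℕ → Submodule F (MvPolynomial (Fin 2) F) :=
  MvPolynomial.homogeneousSubmodule (Fin 2) F

instance (F : Type) [Field F] : GradedAlgebra (gr F) := MvPolynomial.gradedAlgebra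

/-- the projective line over `F` as a scheme -/
def P1S (F : Type) [Field F] : Scheme.{0} := Proj (gr F)

/-- the map from the constants to the forms of degree zero -/
def P1c (F : Type) [Field F] : CommRingCat.of F ⟶ CommRingCat.of (gr F 0) :=
  CommRingCat.ofHom (algebraMap F (gr F 0))

/-- the structure map of the projective line over `F` -/
def P1h (F : Type) [Field F] : P1S F ⟶ Spec (.of F) :=
  Proj.toSpecZero (gr F) ≫ Spec.map (P1c F)

/-- the projective line over a field `F`, with its structure map. -/
def P1 (F : Type) [Field F] : Over (Spec (.of F)) := Over.mk (P1h F)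

lemma hom_scale {R S : Type} [CommRing R] [CommRing S] {n : ℕ} {φ : MvPolynomial (Fin 2) R}
    (hφ : φ.IsHomogeneous n) (f : R →+* S) (c : S) (v : Fin 2 → S) :
    MvPolynomial.eval₂ f (fun i => c * v i) φ = c ^ n * MvPolynomial.eval₂ f v φ := by
  rw [MvPolynomial.eval₂_eq', MvPolynomial.eval₂_eq', Finset.mul_sum]
  refine Finset.sum_congr rfl (fun d hd => ?_)
  have h1 : d 0 + d 1 = n := by
    have := hφ (MvPolynomial.mem_support_iff.1 hd)
    simpa [Finsupp.weight_apply, Finsupp.sum_fintype] using this
  simp only [Fin.prod_univ_two, mul_pow, ← h1, pow_add]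
  ring

variable {F : Type} [Field F] [CharZero F] {R : Type} [CommRing R] [Algebra F R]

/-- evaluation of homogeneous fractions -/
def evA (f : MvPolynomial (Fin 2) F) (v : Fin 2 → R) (hu : IsUnit (MvPolynomial.aeval v f)) :
    HomogeneousLocalization.Away (gr F) f →+* R :=
  (IsLocalization.Away.lift f (g := (MvPolynomial.aeval v : _ →ₐ[F] R).toRingHom) hu).comp
    (algebraMap (HomogeneousLocalization.Away (gr F) f) (Localization.Away f))

lemma evA_mk (f : MvPolynomial (Fin 2) F) (v : Fin 2 → R) (hu : IsUnit (MvPolynomial.aeval v f))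
    {d : ℕ} (hf : f ∈ gr F d) (n : ℕ) (x : MvPolynomial (Fin 2) F) (hx : x ∈ gr F (n • d)) :
    evA f v hu (HomogeneousLocalization.Away.mk (gr F) hf n x hx) * (MvPolynomial.aeval v f) ^ n =
      MvPolynomial.aeval v x := by
  have h1 : (algebraMap (HomogeneousLocalization.Away (gr F) f) (Localization.Away f))
      (HomogeneousLocalization.Away.mk (gr F) hf n x hx) *
      algebraMap _ (Localization.Away f) (f ^ n) = algebraMap _ (Localization.Away f) x := by
    rw [HomogeneousLocalization.algebraMap_apply, HomogeneousLocalization.Away.val_mk,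
      Localization.mk_eq_mk', IsLocalization.mk'_spec]
  have h2 := congrArg (IsLocalization.Away.lift f
    (g := (MvPolynomial.aeval v : _ →ₐ[F] R).toRingHom) hu) h1
  rw [map_mul, IsLocalization.Away.lift_eq, IsLocalization.Away.lift_eq, map_pow] at h2
  exact h2

/-- composition with a ring map -/
lemma evA_comp {R' : Type} [CommRing R'] [Algebra F R'] (g : R →ₐ[F] R')
    (f : MvPolynomial (Fin 2) F) (v : Fin 2 → R) (hu : IsUnit (MvPolynomial.aeval v f))
    (hu' : IsUnit (MvPolynomial.aeval (fun i => g (v i)) f)) :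
    (g : R →+* R').comp (evA f v hu) = evA f (fun i => g (v i)) hu' := by
  rw [evA, evA, ← RingHom.comp_assoc]
  congr 1
  apply IsLocalization.ringHom_ext (Submonoid.powers f)
  rw [RingHom.comp_assoc, IsLocalization.Away.lift_comp, IsLocalization.Away.lift_comp]
  apply MvPolynomial.ringHom_ext
  · intro r; simp
  · intro i; simp

/-- scaling the coordinates does not change the evaluation -/
lemma evA_scale (f : MvPolynomial (Fin 2) F) {d : ℕ} (hf : f ∈ gr F d) (c : R)
    (v : Fin 2 → R) (hu : IsUnit (MvPolynomial.aeval v f))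
    (hu' : IsUnit (MvPolynomial.aeval (fun i => c * v i) f)) :
    evA f (fun i => c * v i) hu' = evA f v hu := by
  ext y
  obtain ⟨n, x, hx, rfl⟩ := HomogeneousLocalization.Away.mk_surjective (gr F) hf y
  have h1 := evA_mk f v hu hf n x hx
  have h2 := evA_mk f _ hu' hf n x hx
  have h3 : MvPolynomial.aeval (fun i => c * v i) x = c ^ (n • d) * MvPolynomial.aeval v x :=
    hom_scale hx (algebraMap F R) c v
  have h4 : MvPolynomial.aeval (fun i => c * v i) f = c ^ d * MvPolynomial.aeval v f :=
    hom_scale hf (algebraMap F R) c v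
  have h5 : IsUnit ((MvPolynomial.aeval (fun i => c * v i) f) ^ n) := hu'.pow n
  refine h5.mul_right_cancel ?_
  rw [h2, h3, ← h1, h4, mul_pow, ← pow_mul, smul_eq_mul, mul_comm n d]
  ring

/-- compatibility with localisation -/
lemma evA_awayMap (f g : MvPolynomial (Fin 2) F) {e : ℕ} (hg : g ∈ gr F e) {x}
    (hx : x = f * g) (v : Fin 2 → R) (hu : IsUnit (MvPolynomial.aeval v f))
    (hu' : IsUnit (MvPolynomial.aeval v x)) :
    (evA x v hu').comp (HomogeneousLocalization.awayMap (gr F) hg hx) = evA f v hu := by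
  ext y
  rw [evA, evA, RingHom.comp_apply, RingHom.comp_apply, RingHom.comp_apply,
    HomogeneousLocalization.algebraMap_apply, HomogeneousLocalization.algebraMap_apply,
    HomogeneousLocalization.val_awayMap, ← RingHom.comp_apply]
  congr 1
  apply IsLocalization.ringHom_ext (Submonoid.powers f)
  rw [RingHom.comp_assoc, IsLocalization.Away.lift_comp]
  ext z
  · simp
  · simp

/-- the point of the projective line with coordinates `v`, read in the chart `f ≠ 0` -/
def ptf (f : MvPolynomial (Fin 2) F) {d : ℕ} (hf : f ∈ gr F d) (hd : 0 < d) (v : Fin 2 → R)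
    (hu : IsUnit (MvPolynomial.aeval v f)) : Spec (.of R) ⟶ Proj (gr F) :=
  Spec.map (CommRingCat.ofHom (evA f v hu)) ≫ Proj.awayι (gr F) f hf hd

lemma ptf_str (f : MvPolynomial (Fin 2) F) {d : ℕ} (hf : f ∈ gr F d) (hd : 0 < d) (v : Fin 2 → R)
    (hu : IsUnit (MvPolynomial.aeval v f)) :
    ptf f hf hd v hu ≫ (P1 F).hom = Spec.map (CommRingCat.ofHom (algebraMap F R)) := by
  change (Spec.map _ ≫ Proj.awayι (gr F) f hf hd) ≫ (Proj.toSpecZero (gr F) ≫
    Spec.map (CommRingCat.ofHom (algebraMap F (gr F 0)))) = _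
  rw [Category.assoc, Proj.awayι_toSpecZero_assoc, ← Spec.map_comp, ← Spec.map_comp,
    ← CommRingCat.ofHom_comp, ← CommRingCat.ofHom_comp]
  congr 2
  ext r
  have e : Localization.mk (algebraMap F (MvPolynomial (Fin 2) F) r) (1 : Submonoid.powers f) =
      algebraMap (MvPolynomial (Fin 2) F) (Localization.Away f) (algebraMap F _ r) :=
    Localization.mk_one_eq_algebraMap (M := Submonoid.powers f) _
  have e2 : IsLocalization.Away.lift (S := Localization.Away f) f
      (g := (MvPolynomial.aeval v : _ →ₐ[F] R).toRingHom) hu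
      (algebraMap (MvPolynomial (Fin 2) F) (Localization.Away f) (algebraMap F _ r)) = _ :=
    IsLocalization.Away.lift_eq f hu _
  have e3 := congrArg (IsLocalization.Away.lift (S := Localization.Away f) f
      (g := (MvPolynomial.aeval v : _ →ₐ[F] R).toRingHom) hu) e
  exact e3.trans (e2.trans ((MvPolynomial.aeval v).commutes r))

lemma ptf_mul (f g : MvPolynomial (Fin 2) F) {d e : ℕ} (hf : f ∈ gr F d) (hd : 0 < d)
    (hg : g ∈ gr F e) {x} (hx : x = f * g) (v : Fin 2 → R)
    (hu : IsUnit (MvPolynomial.aeval v f)) (hu' : IsUnit (MvPolynomial.aeval v x))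
    (hxm : x ∈ gr F (d + e)) (hm : 0 < d + e) :
    ptf f hf hd v hu = ptf x hxm hm v hu' := by
  rw [ptf, ptf, ← evA_awayMap f g hg hx v hu hu', CommRingCat.ofHom_comp, Spec.map_comp,
    Category.assoc, Proj.SpecMap_awayMap_awayι]

lemma ptf_comp {R' : Type} [CommRing R'] [Algebra F R'] (g : R →ₐ[F] R')
    (f : MvPolynomial (Fin 2) F) {d : ℕ} (hf : f ∈ gr F d) (hd : 0 < d)
    (v : Fin 2 → R) (hu : IsUnit (MvPolynomial.aeval v f))
    (hu' : IsUnit (MvPolynomial.aeval (fun i => g (v i)) f)) :
    Spec.map (CommRingCat.ofHom (g : R →+* R')) ≫ ptf f hf hd v hu =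
      ptf f hf hd (fun i => g (v i)) hu' := by
  rw [ptf, ptf, ← evA_comp g f v hu hu', CommRingCat.ofHom_comp, Spec.map_comp, Category.assoc]

lemma ptf_scale (f : MvPolynomial (Fin 2) F) {d : ℕ} (hf : f ∈ gr F d) (hd : 0 < d) (c : R)
    (v : Fin 2 → R) (hu : IsUnit (MvPolynomial.aeval v f))
    (hu' : IsUnit (MvPolynomial.aeval (fun i => c * v i) f)) :
    ptf f hf hd (fun i => c * v i) hu' = ptf f hf hd v hu := by
  rw [ptf, ptf, evA_scale f hf c v hu hu']

open Polynomial in
/-- the coordinates of the `i`-th affine chart -/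
def cv (F : Type) [Field F] (i : Fin 2) : Fin 2 → F[X] := fun k => if k = i then 1 else X

lemma X_mem (i : Fin 2) : (MvPolynomial.X i : MvPolynomial (Fin 2) F) ∈ gr F 1 :=
  MvPolynomial.isHomogeneous_X F i

variable (F) in
lemma cv_unit (i : Fin 2) : IsUnit (MvPolynomial.aeval (cv F i) (MvPolynomial.X i :
    MvPolynomial (Fin 2) F)) := by
  simp [cv]

lemma cv_one (i : Fin 2) : MvPolynomial.aeval (cv F i) (MvPolynomial.X i :
    MvPolynomial (Fin 2) F) = 1 := by
  simp [cv]

lemma cv_swap (i : Fin 2) : MvPolynomial.aeval (cv F i) (MvPolynomial.X i.rev :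
    MvPolynomial (Fin 2) F) = Polynomial.X := by
  fin_cases i <;> simp [cv]

lemma dehom_inj (i : Fin 2) {n : ℕ} (x : MvPolynomial (Fin 2) F) (hx : x ∈ gr F n)
    (h : MvPolynomial.aeval (cv F i) x = 0) : x = 0 := by
  have h1 : x * MvPolynomial.X i = 0 := by
    apply MvPolynomial.funext
    intro v
    rw [map_mul, MvPolynomial.eval_X, map_zero]
    by_cases hv : v i = 0
    · rw [hv, mul_zero]
    · have h2 : MvPolynomial.eval v x = (v i) ^ n * MvPolynomial.eval (fun k => (v i)⁻¹ * v k) x := by
        have := hom_scale hx (RingHom.id F) (v i) (fun k => (v i)⁻¹ * v k)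
        rw [← MvPolynomial.eval₂_id, ← MvPolynomial.eval₂_id, ← this]
        congr 1
        ext k
        rw [mul_inv_cancel_left₀ hv]
      have h3 : MvPolynomial.eval (fun k => (v i)⁻¹ * v k) x =
          (MvPolynomial.aeval (cv F i) x).eval ((v i)⁻¹ * v i.rev) := by
        have h4 : (Polynomial.evalRingHom ((v i)⁻¹ * v i.rev)).comp
            (MvPolynomial.aeval (cv F i) : _ →ₐ[F] _).toRingHom =
            MvPolynomial.eval (fun k => (v i)⁻¹ * v k) := by
          apply MvPolynomial.ringHom_ext
          · intro r; simp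
          · intro k
            fin_cases i <;> fin_cases k <;> simp [cv] <;> field_simp [hv]
            all_goals exact (div_self hv).symm
        exact (congr($h4 x)).symm
      rw [h2, h3, h]
      simp
  exact (mul_eq_zero.1 h1).resolve_right (MvPolynomial.X_ne_zero i)

lemma evA_bij (i : Fin 2) : Function.Bijective (evA (MvPolynomial.X i) (cv F i) (cv_unit F i)) := by
  constructor
  · rw [injective_iff_map_eq_zero]
    intro y hy
    obtain ⟨n, x, hx, rfl⟩ := HomogeneousLocalization.Away.mk_surjective (gr F) (X_mem i) y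
    have h1 := evA_mk _ _ (cv_unit F i) (X_mem i) n x hx
    rw [hy, zero_mul] at h1
    have h2 := dehom_inj i x hx h1.symm
    subst h2
    apply HomogeneousLocalization.val_injective
    rw [HomogeneousLocalization.Away.val_mk, HomogeneousLocalization.val_zero,
      Localization.mk_zero]
  · intro p
    induction p using Polynomial.induction_on' with
    | add p q hp hq =>
      obtain ⟨y, rfl⟩ := hp
      obtain ⟨z, rfl⟩ := hq
      exact ⟨y + z, map_add _ _ _⟩
    | monomial n a =>
      have hm : MvPolynomial.C a * MvPolynomial.X i.rev ^ n ∈ gr F (n • 1) := by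
        have := (MvPolynomial.isHomogeneous_C (Fin 2) a).mul
          ((MvPolynomial.isHomogeneous_X F i.rev).pow n)
        simpa using this
      refine ⟨HomogeneousLocalization.Away.mk (gr F) (X_mem i) n _ hm, ?_⟩
      have h1 := evA_mk _ _ (cv_unit F i) (X_mem i) n _ hm
      rw [cv_one, one_pow, mul_one] at h1
      rw [h1, map_mul, map_pow, cv_swap, ← Polynomial.C_mul_X_pow_eq_monomial]
      simp

end Pool.Agent.W487.G
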