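import Mathlib
import Pool.Agent.W487.G.P1a
import Pool.Agent.W487.G.Opn

open CategoryTheory Limits Opposite AlgebraicGeometry

set_option backward.isDefEq.respectTransparency false
set_option linter.unusedSimpArgs false
set_option linter.unusedSectionVars false

noncomputable section

namespace Pool.Agent.W487.G

variable (F : Type) [Field F] [CharZero F]

/-- the `i`-th chart of the projective line -/
def chL (i : Fin 2) : Spec (.of (Polynomial F)) ⟶ Proj (gr F) :=
  ptf (MvPolynomial.X i) (X_mem i) one_pos (cv F i) (cv_unit F i)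

instance (i : Fin 2) : IsIso (Spec.map (CommRingCat.ofHom
    (evA (MvPolynomial.X i) (cv F i) (cv_unit F i)))) := by
  let e := (RingEquiv.ofBijective _ (evA_bij (F := F) i)).toCommRingCatIso
  exact inferInstanceAs (IsIso (Spec.map e.hom))

instance (i : Fin 2) : IsOpenImmersion (chL F i) := by
  unfold chL ptf
  infer_instance

/-- the open set where `X i` does not vanish -/
def Dp (i : Fin 2) : (P1 F).left.Opens := Proj.basicOpen (gr F) (MvPolynomial.X i)

lemma range_chL (i : Fin 2) : Set.range (chL F i) =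
    (Proj.basicOpen (gr F) (MvPolynomial.X i) : Set (Proj (gr F))) := by
  have h1 := Proj.opensRange_awayι (gr F) (MvPolynomial.X i) (X_mem i) one_pos
  have h2 : Set.range (Proj.awayι (gr F) (MvPolynomial.X i) (X_mem i) one_pos) =
      (Proj.basicOpen (gr F) (MvPolynomial.X i) : Set (Proj (gr F))) :=
    congrArg (fun V : (Proj (gr F)).Opens => (V : Set (Proj (gr F)))) h1
  rw [← h2, chL, ptf, Scheme.Hom.comp_base, TopCat.coe_comp, Set.range_comp,
    Set.range_eq_univ.2 (Scheme.Hom.surjective _), Set.image_univ]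

lemma Dp_sup : Dp F 0 ⊔ Dp F 1 = ⊤ := by
  have h := Proj.iSup_basicOpen_eq_top' (gr F) (fun i : Fin 2 => MvPolynomial.X i)
    (fun i => ⟨1, X_mem i⟩) (by
      rw [eq_top_iff]
      rintro x -
      induction x using MvPolynomial.induction_on with
      | C r =>
        have h0 : MvPolynomial.C r ∈ gr F 0 := MvPolynomial.isHomogeneous_C _ r
        exact (Algebra.adjoin (gr F 0) _).algebraMap_mem ⟨_, h0⟩
      | add p q hp hq => exact add_mem hp hq
      | mul_X p i hp => exact mul_mem hp (Algebra.subset_adjoin ⟨i, rfl⟩))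
  rw [← h]
  simp only [Fin.isValue, Dp]
  apply le_antisymm
  · exact sup_le (le_iSup (fun i : Fin 2 => Proj.basicOpen (gr F) (MvPolynomial.X i)) 0)
      (le_iSup (fun i : Fin 2 => Proj.basicOpen (gr F) (MvPolynomial.X i)) 1)
  · refine iSup_le (fun i => ?_)
    fin_cases i
    · exact le_sup_left
    · exact le_sup_right

/-- the `i`-th chart as a morphism over `F` -/
def ch (i : Fin 2) : A1 F ⟶ P1 F := Over.homMk (chL F i)
  (ptf_str (MvPolynomial.X i) (X_mem i) one_pos (cv F i) (cv_unit F i))

instance (i : Fin 2) : Mono (ch F i) := by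
  have : Mono (ch F i).left := inferInstanceAs (Mono (chL F i))
  exact Over.mono_of_mono_left _

/-- `X₀ X₁` -/
def xx : MvPolynomial (Fin 2) F := MvPolynomial.X 0 * MvPolynomial.X 1

lemma xx_mem : xx F ∈ gr F 2 := SetLike.mul_mem_graded (X_mem 0) (X_mem 1)

/-- the coordinates `(1, e)` -/
def we (e : ℝ) : Fin 2 → ℝ := ![1, e]

variable [Algebra F ℝ]

lemma we_unit {e : ℝ} (he : e * e = 1) : IsUnit (MvPolynomial.aeval (we e) (xx F)) := by
  have : e ≠ 0 := by
    rintro rfl
    norm_num at he
  simpa [xx, we] using this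

/-- the point `(1 : e)` -/
def pe {e : ℝ} (he : e * e = 1) : SR ⟶ Proj (gr F) :=
  ptf (xx F) (xx_mem F) two_pos (we e) (we_unit F he)

lemma ptA_ch0 {e : ℝ} (he : e * e = 1) : (ptA (F := F) e).left ≫ chL F 0 = pe F he := by
  have he0 : e ≠ 0 := by
    rintro rfl
    norm_num at he
  let g : Polynomial F →ₐ[F] ℝ := Polynomial.aeval e
  have h1 : (ptA (F := F) e).left = Spec.map (CommRingCat.ofHom (g : Polynomial F →+* ℝ)) := rfl
  have h2 : (fun i => g (cv F 0 i)) = we e := by
    ext i
    fin_cases i <;> simp [g, cv, we]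
  have hu : IsUnit (MvPolynomial.aeval (fun i => g (cv F 0 i))
      (MvPolynomial.X 0 : MvPolynomial (Fin 2) F)) := by
    rw [h2]; simp [we]
  refine (congrArg (fun z => z ≫ chL F 0) h1).trans ?_
  refine (ptf_comp g _ _ _ _ (cv_unit F 0) hu).trans ?_
  have hu2 : IsUnit (MvPolynomial.aeval (we e) (MvPolynomial.X 0 : MvPolynomial (Fin 2) F)) := by
    simp [we]
  have h3 := ptf_mul (MvPolynomial.X 0) (MvPolynomial.X 1) (X_mem 0) one_pos (X_mem 1)
    (x := xx F) rfl (we e) hu2 (we_unit F he) (xx_mem F) two_pos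
  rw [pe, ← h3]
  congr 1

lemma ptA_ch1 {e : ℝ} (he : e * e = 1) : (ptA (F := F) e).left ≫ chL F 1 = pe F he := by
  have he0 : e ≠ 0 := by
    rintro rfl
    norm_num at he
  let g : Polynomial F →ₐ[F] ℝ := Polynomial.aeval e
  have h1 : (ptA (F := F) e).left = Spec.map (CommRingCat.ofHom (g : Polynomial F →+* ℝ)) := rfl
  have h2 : (fun i => g (cv F 1 i)) = (fun i => e * we e i) := by
    ext i
    fin_cases i <;> simp [g, cv, we, he]
  have hu : IsUnit (MvPolynomial.aeval (fun i => g (cv F 1 i))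
      (MvPolynomial.X 1 : MvPolynomial (Fin 2) F)) := by
    rw [h2]; simp [we, he]
  refine (congrArg (fun z => z ≫ chL F 1) h1).trans ?_
  refine (ptf_comp g _ _ _ _ (cv_unit F 1) hu).trans ?_
  have hu2 : IsUnit (MvPolynomial.aeval (fun i => e * we e i)
      (MvPolynomial.X 1 : MvPolynomial (Fin 2) F)) := by
    simp [we, he]
  have hu3 : IsUnit (MvPolynomial.aeval (fun i => e * we e i) (xx F)) := by
    simp [we, he, xx, he0]
  have h3 := ptf_mul (MvPolynomial.X 1) (MvPolynomial.X 0) (X_mem 1) one_pos (X_mem 0)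
    (x := xx F) (mul_comm _ _) (fun i => e * we e i) hu2 hu3 (xx_mem F) two_pos
  have h4 := ptf_scale (xx F) (xx_mem F) two_pos e (we e) (we_unit F he) hu3
  rw [pe, ← h4, ← h3]
  congr 1

end Pool.Agent.W487.G
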