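import Mathlib
import Pool.Agent.W487.G.P1b

open CategoryTheory Limits Opposite AlgebraicGeometry TopologicalSpace Topology

set_option backward.isDefEq.respectTransparency false
set_option linter.unusedSimpArgs false
set_option linter.unusedSectionVars false

noncomputable section

namespace Pool.Agent.W487.G

/-- A curve over `S = Spec F`: an integral separated scheme of finite type, of dimension one. -/
structure IsCurve {S : Scheme.{0}} (C : Over S) : Prop where
  integral : IsIntegral C.left
  separated : IsSeparated C.hom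
  locallyOfFiniteType : LocallyOfFiniteType C.hom
  quasiCompact : QuasiCompact C.hom
  dim : topologicalKrullDim C.left = 1

lemma irred_of_two {X : Type} [TopologicalSpace X] (A B : Set X) (hA : IsOpen A) (hB : IsOpen B)
    (iA : IsIrreducible A) (iB : IsIrreducible B) (hAB : (A ∩ B).Nonempty)
    (h : A ∪ B = Set.univ) : IrreducibleSpace X := by
  have hn : Nonempty X := ⟨hAB.some⟩
  have hdA : ∀ u : Set X, IsOpen u → u.Nonempty → (u ∩ (A ∩ B)).Nonempty := by
    intro u hu hun
    obtain ⟨x, hx⟩ := hun
    rcases (h ▸ Set.mem_univ x : x ∈ A ∪ B) with hxA | hxB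
    · obtain ⟨y, hy⟩ := iA.2 u B hu hB ⟨x, hxA, hx⟩ hAB
      exact ⟨y, hy.2.1, hy.1, hy.2.2⟩
    · obtain ⟨y, hy⟩ := iB.2 u A hu hA ⟨x, hxB, hx⟩ (by rwa [Set.inter_comm])
      exact ⟨y, hy.2.1, hy.2.2, hy.1⟩
  have : PreirreducibleSpace X := by
    refine ⟨?_⟩
    intro u v hu hv hun hvn
    rw [Set.univ_inter] at hun hvn
    obtain ⟨x, hx⟩ := hdA u hu hun
    obtain ⟨y, hy⟩ := hdA v hv hvn
    obtain ⟨z, hz⟩ := iA.2 u v hu hv ⟨x, hx.2.1, hx.1⟩ ⟨y, hy.2.1, hy.1⟩
    exact ⟨z, trivial, hz.2⟩
  exact ⟨hn⟩

variable (F : Type) [Field F] [CharZero F]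

lemma ch_cover (x : Proj (gr F)) : ∃ i : Fin 2, x ∈ Set.range (chL F i) := by
  have h : x ∈ (Dp F 0 ⊔ Dp F 1 : (P1 F).left.Opens) := by
    rw [Dp_sup]
    trivial
  rcases h with h | h
  · exact ⟨0, by rw [range_chL]; exact h⟩
  · exact ⟨1, by rw [range_chL]; exact h⟩

lemma range_open (i : Fin 2) : IsOpen (Set.range (chL F i)) :=
  (chL F i).isOpenEmbedding.isOpen_range

lemma range_irred (i : Fin 2) : IsIrreducible (Set.range (chL F i)) := by
  rw [← Set.image_univ]
  exact (IrreducibleSpace.isIrreducible_univ _).image _ (chL F i).continuous.continuousOn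

variable [Algebra F ℝ]

lemma ranges_meet : (Set.range (chL F 0) ∩ Set.range (chL F 1)).Nonempty := by
  have h1 : (1 : ℝ) * 1 = 1 := by norm_num
  refine ⟨(pe F h1) (default : SR), ?_, ?_⟩
  · rw [← ptA_ch0 F h1]
    exact ⟨(ptA (F := F) 1).left (default : SR), rfl⟩
  · rw [← ptA_ch1 F h1]
    exact ⟨(ptA (F := F) 1).left (default : SR), rfl⟩

theorem irred_P1 : IrreducibleSpace (Proj (gr F)) := by
  refine irred_of_two _ _ (range_open F 0) (range_open F 1) (range_irred F 0) (range_irred F 1)
    (ranges_meet F) ?_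
  rw [Set.eq_univ_iff_forall]
  intro x
  obtain ⟨i, hi⟩ := ch_cover F x
  fin_cases i
  · exact Or.inl hi
  · exact Or.inr hi

/-- the two charts as an open cover -/
def chCov : Scheme.OpenCover.{0} (Proj (gr F)) :=
  Scheme.Cover.mkOfCovers (Fin 2) (fun _ => Spec (.of (Polynomial F))) (chL F) (ch_cover F)

theorem reduced_P1 : IsReduced (Proj (gr F)) := by
  have : ∀ i, IsReduced ((chCov F).X i) := fun i =>
    inferInstanceAs (IsReduced (Spec (.of (Polynomial F))))
  exact IsReduced.of_openCover _ (chCov F)

theorem integral_P1 : IsIntegral (Proj (gr F)) := by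
  have := irred_P1 F
  have := reduced_P1 F
  exact isIntegral_of_irreducibleSpace_of_isReduced _

lemma dim_line : topologicalKrullDim (Spec (.of (Polynomial F))) = 1 := by
  have h1 : topologicalKrullDim (PrimeSpectrum (Polynomial F)) = ringKrullDim (Polynomial F) :=
    PrimeSpectrum.topologicalKrullDim_eq_ringKrullDim _
  refine h1.trans ?_
  exact IsPrincipalIdealRing.ringKrullDim_eq_one _ (Polynomial.not_isField F)

lemma dim_P1 : topologicalKrullDim (Proj (gr F)) = 1 := by
  apply le_antisymm
  · rw [topologicalKrullDim, Order.krullDim_eq_iSup_coheight]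
    refine iSup_le (fun Z => ?_)
    obtain ⟨x, hx⟩ := Z.isIrreducible.nonempty
    obtain ⟨i, y, rfl⟩ := ch_cover F x
    have hne : ((chL F i) ⁻¹' (Z : Set (Proj (gr F)))).Nonempty := ⟨y, hx⟩
    obtain ⟨Z', hZ'⟩ := (IrreducibleCloseds.orderIsoOfIsOpenEmbedding (chL F i)
      (chL F i).isOpenEmbedding).surjective ⟨Z, hne⟩
    have h2 : IrreducibleCloseds.map (chL F i) (chL F i).continuous Z' = Z :=
      congrArg Subtype.val hZ'
    rw [← h2, Topology.IsOpenEmbedding.coheight_map (chL F i).isOpenEmbedding, ← dim_line F]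
    exact Order.coheight_le_krullDim Z'
  · rw [← dim_line F]
    exact (chL F 0).isOpenEmbedding.isInducing.topologicalKrullDim_le

theorem isCurve_P1 : IsCurve (P1 F) where
  integral := integral_P1 F
  separated := by
    have : (P1 F).left.IsSeparated := inferInstanceAs (Scheme.IsSeparated (Proj (gr F)))
    have h2 : IsSeparated ((P1 F).hom ≫ terminal.from _) := by
      rw [terminal.comp_from]
      infer_instance
    exact IsSeparated.of_comp _ (terminal.from _)
  locallyOfFiniteType := by
    apply IsZariskiLocalAtSource.of_openCover (P := @LocallyOfFiniteType) (chCov F)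
    intro i
    have h1 : (chCov F).f i ≫ (P1 F).hom =
        Spec.map (CommRingCat.ofHom (algebraMap F (Polynomial F))) :=
      ptf_str (MvPolynomial.X i) (X_mem i) one_pos (cv F i) (cv_unit F i)
    rw [h1, HasRingHomProperty.Spec_iff (P := @LocallyOfFiniteType)]
    change (algebraMap F (Polynomial F)).FiniteType
    rw [RingHom.finiteType_algebraMap]
    infer_instance
  quasiCompact := by
    have h1 : CompactSpace (P1 F).left := by
      have h2 : (Set.univ : Set (Proj (gr F))) = Set.range (chL F 0) ∪ Set.range (chL F 1) := by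
        symm
        rw [Set.eq_univ_iff_forall]
        intro x
        obtain ⟨i, hi⟩ := ch_cover F x
        fin_cases i
        · exact Or.inl hi
        · exact Or.inr hi
      have h3 : IsCompact (Set.univ : Set (Proj (gr F))) := by
        rw [h2]
        exact (isCompact_range (chL F 0).continuous).union (isCompact_range (chL F 1).continuous)
      exact ⟨h3⟩
    exact (HasAffineProperty.iff_of_isAffine (P := @QuasiCompact)).2 h1
  dim := dim_P1 F

end Pool.Agent.W487.G
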