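import Mathlib
import Pool.Agent.W487.G.P1b

open CategoryTheory Limits Opposite Abelian AlgebraicGeometry

set_option backward.isDefEq.respectTransparency false
set_option linter.unusedSimpArgs false
set_option linter.unusedSectionVars false

noncomputable section

namespace Pool.Agent.W487.G

section
variable (F : Type) [Field F] [CharZero F]

/-- `X₁² / (X₀ X₁)` -/
def uf : HomogeneousLocalization.Away (gr F) (xx F) :=
  HomogeneousLocalization.Away.mk (gr F) (xx_mem F) 1 (MvPolynomial.X 1 * MvPolynomial.X 1)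
    (SetLike.mul_mem_graded (X_mem 1) (X_mem 1))

/-- `X₀² / (X₀ X₁)` -/
def vf : HomogeneousLocalization.Away (gr F) (xx F) :=
  HomogeneousLocalization.Away.mk (gr F) (xx_mem F) 1 (MvPolynomial.X 0 * MvPolynomial.X 0)
    (SetLike.mul_mem_graded (X_mem 0) (X_mem 0))

lemma uf_vf : uf F * vf F = 1 := by
  apply HomogeneousLocalization.val_injective
  rw [HomogeneousLocalization.val_mul, HomogeneousLocalization.val_one, uf, vf,
    HomogeneousLocalization.Away.val_mk, HomogeneousLocalization.Away.val_mk,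
    Localization.mk_mul]
  have e : (MvPolynomial.X 1 * MvPolynomial.X 1 * (MvPolynomial.X 0 * MvPolynomial.X 0) :
      MvPolynomial (Fin 2) F) = ((⟨xx F ^ 1, 1, rfl⟩ * ⟨xx F ^ 1, 1, rfl⟩ :
      Submonoid.powers (xx F)) : MvPolynomial (Fin 2) F) := by
    change _ = xx F ^ 1 * xx F ^ 1
    rw [xx]
    ring
  rw [e]
  exact Localization.mk_self _

/-- the coordinate function as a unit -/
def uu : (HomogeneousLocalization.Away (gr F) (xx F))ˣ :=
  ⟨uf F, vf F, uf_vf F, by rw [mul_comm, uf_vf]⟩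

lemma evA_uu [Algebra F ℝ] {e : ℝ} (he : e * e = 1) :
    evA (xx F) (we e) (we_unit F he) (uu F) = e := by
  have h := evA_mk (xx F) (we e) (we_unit F he) (xx_mem F) 1 _
    (SetLike.mul_mem_graded (X_mem 1) (X_mem 1))
  have he0 : e ≠ 0 := by
    rintro rfl
    norm_num at he
  have h2 : evA (xx F) (we e) (we_unit F he) (uf F) * e = e * e := by
    simpa [xx, we, uf] using h
  exact mul_right_cancel₀ he0 h2

end

/-- units of `R` as units on `Spec R` -/
def spu (R : Type) [CommRing R] : Rˣ →* Γ(Spec (.of R), ⊤)ˣ :=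
  Units.map ((Scheme.ΓSpecIso (.of R)).inv.hom : _ →* _)

lemma upull_spu {R R' : Type} [CommRing R] [CommRing R'] (g : R →+* R') (u : Rˣ) :
    upull (Spec.map (CommRingCat.ofHom g)) (spu R u) = spu R' (Units.map (g : _ →* _) u) := by
  ext
  exact congr(($(Scheme.ΓSpecIso_inv_naturality (CommRingCat.ofHom g))).hom (u : R)).symm

lemma res_sub {S : Scheme.{0}} {T T' : Over S} {A : Sh S} {n : ℕ} (f : T' ⟶ T)
    (x y : Ext ((ZS S).obj T) A n) : res f (x - y) = res f x - res f y := by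
  have h : x - y + y = x := sub_add_cancel x y
  have h2 := res_add f (x - y) y
  rw [h] at h2
  rw [h2, add_sub_cancel_right]

section main

variable {F : Type} [Field F] [CharZero F] (U : (P1 F).left.Opens)

/-- the covering of `U` by the two charts -/
def cvr : TwoCover (SF F) :=
  ofOpens (P1 F) U (U ⊓ Dp F 0) (U ⊓ Dp F 1) inf_le_left inf_le_left (by
    rw [← inf_sup_left, Dp_sup, inf_top_eq])

/-- the map from the intersection of the charts to `Spec F[X₀,X₁]_{(X₀X₁)}` -/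
def gam : (cvr U).V01.left ⟶ Spec (.of (HomogeneousLocalization.Away (gr F) (xx F))) :=
  IsOpenImmersion.lift (Proj.awayι (gr F) (xx F) (xx_mem F) two_pos)
    (U ⊓ Dp F 0 ⊓ (U ⊓ Dp F 1)).ι (by
    have h1 := Proj.opensRange_awayι (gr F) (xx F) (xx_mem F) two_pos
    have h2 : Set.range (Proj.awayι (gr F) (xx F) (xx_mem F) two_pos) =
      (Proj.basicOpen (gr F) (xx F) : Set (Proj (gr F))) :=
      congrArg (fun V : (Proj (gr F)).Opens => (V : Set (Proj (gr F)))) h1
    rw [h2, xx, Proj.basicOpen_mul]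
    refine (Scheme.Opens.range_ι _).le.trans ?_
    exact fun x hx => ⟨hx.1.2, hx.2.2⟩)

lemma gam_awayι : gam U ≫ Proj.awayι (gr F) (xx F) (xx_mem F) two_pos =
    (opI (P1 F) (U ⊓ Dp F 0 ⊓ (U ⊓ Dp F 1))).left :=
  IsOpenImmersion.lift_fac _ _ _

/-- the coordinate function on the intersection of the charts -/
def tt : Γ((cvr U).V01.left, ⊤)ˣ := upull (gam U) (spu _ (uu F))

/-- the class `α` in degree `1 + 2k` -/
def alp (k : ℕ) : Ext ((ZS (SF F)).obj (opO (P1 F) U)) (Gm (SF F)) (1 + 2 * k) :=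
  (cvr U).del (bet k (gsec (T := (cvr U).V01) (tt U)))

/-- the map from the chart to the line -/
def aa (i : Fin 2) : opO (P1 F) (U ⊓ Dp F i) ⟶ A1 F :=
  Over.homMk (IsOpenImmersion.lift (chL F i) (U ⊓ Dp F i).ι (by
    refine (Scheme.Opens.range_ι _).le.trans (Set.Subset.trans ?_ (range_chL F i).ge)
    exact fun x hx => hx.2)) (by
    rw [← Over.w (ch F i)]
    change _ ≫ chL F i ≫ _ = _
    rw [IsOpenImmersion.lift_fac_assoc]
    rfl)

lemma aa_ch (i : Fin 2) : aa U i ≫ ch F i = opI (P1 F) (U ⊓ Dp F i) := by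
  apply Over.OverMorphism.ext
  exact IsOpenImmersion.lift_fac _ _ _

instance (i : Fin 2) : Mono (aa U i) := by
  have : Mono (aa U i ≫ ch F i) := by
    rw [aa_ch]
    infer_instance
  exact mono_of_mono _ (ch F i)

instance (i : Fin 2) : Etale (aa U i).left := by
  have : IsOpenImmersion ((aa U i).left ≫ chL F i) := by
    have := congrArg (fun z => z.left) (aa_ch U i)
    change (aa U i).left ≫ chL F i = _ at this
    rw [this, opI_left]
    infer_instance
  have := IsOpenImmersion.of_comp (aa U i).left (chL F i)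
  infer_instance

variable [Algebra F ℝ]
variable (hU : ∀ x : ptR F ⟶ P1 F, Set.range x.left ⊆ (U : Set (P1 F).left))
include hU

lemma range_pp (i : Fin 2) (x : ℝ) :
    Set.range (ptA x ≫ ch F i).left ⊆ ((U ⊓ Dp F i : (P1 F).left.Opens) : Set (P1 F).left) := by
  intro y hy
  refine ⟨hU _ hy, ?_⟩
  have h1 : Set.range (ptA x ≫ ch F i).left ⊆ Set.range (chL F i) := by
    rw [Over.comp_left, Scheme.Hom.comp_base, TopCat.coe_comp]
    exact Set.range_comp_subset_range _ _
  have h2 := h1 hy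
  rw [range_chL] at h2
  exact h2

/-- real points of the charts -/
def pp (i : Fin 2) (x : ℝ) : ptR F ⟶ opO (P1 F) (U ⊓ Dp F i) :=
  opL (U ⊓ Dp F i) (ptA x ≫ ch F i) (range_pp U hU i x)

lemma pp_aa (i : Fin 2) (x : ℝ) : pp U hU i x ≫ aa U i = ptA x := by
  rw [← cancel_mono (ch F i), Category.assoc, aa_ch, pp, opL_opI]

omit hU in
lemma ch_eq {e : ℝ} (he : e * e = 1) : ptA e ≫ ch F 0 = ptA e ≫ ch F 1 := by
  apply Over.OverMorphism.ext
  exact (ptA_ch0 F he).trans (ptA_ch1 F he).symm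

/-- the points `(1 : e)` on the intersection of the charts -/
def qq' {e : ℝ} (he : e * e = 1) : ptR F ⟶ (cvr U).V01 :=
  opL (U ⊓ Dp F 0 ⊓ (U ⊓ Dp F 1)) (ptA e ≫ ch F 0) (fun y hy =>
    ⟨range_pp U hU 0 e hy, range_pp U hU 1 e (by rw [← ch_eq he]; exact hy)⟩)

lemma qq'_k0 {e : ℝ} (he : e * e = 1) : qq' U hU he ≫ (cvr U).k0 = pp U hU 0 e := by
  rw [← cancel_mono (opI (P1 F) (U ⊓ Dp F 0)), pp, opL_opI, Category.assoc]
  change qq' U hU he ≫ opH _ ≫ opI (P1 F) (U ⊓ Dp F 0) = _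
  rw [opH_opI]
  exact opL_opI _ _ _

lemma qq'_k1 {e : ℝ} (he : e * e = 1) : qq' U hU he ≫ (cvr U).k1 = pp U hU 1 e := by
  rw [← cancel_mono (opI (P1 F) (U ⊓ Dp F 1)), pp, opL_opI, Category.assoc]
  change qq' U hU he ≫ opH _ ≫ opI (P1 F) (U ⊓ Dp F 1) = _
  rw [opH_opI, ← ch_eq he]
  exact opL_opI _ _ _

lemma qq'_gam {e : ℝ} (he : e * e = 1) : (qq' U hU he).left ≫ gam U =
    Spec.map (CommRingCat.ofHom (evA (xx F) (we e) (we_unit F he))) := by
  rw [← cancel_mono (Proj.awayι (gr F) (xx F) (xx_mem F) two_pos), Category.assoc, gam_awayι]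
  have h1 := congrArg (fun z => z.left) (opL_opI (X := P1 F) (U ⊓ Dp F 0 ⊓ (U ⊓ Dp F 1))
    (ptA e ≫ ch F 0) (fun y hy =>
    ⟨range_pp U hU 0 e hy, range_pp U hU 1 e (by rw [← ch_eq he]; exact hy)⟩))
  exact h1.trans (ptA_ch0 F he)

lemma qq'_tt {e : ℝ} (he : e * e = 1) (u : ℝˣ) (hu : (u : ℝ) = e) :
    upull (qq' U hU he).left (tt U) = spu ℝ u := by
  rw [tt, ← upull_comp, qq'_gam]
  refine (upull_spu _ _).trans ?_
  refine congrArg (spu ℝ) (Units.ext ?_)
  rw [hu]
  exact evA_uu F he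

theorem alp_ne_zero (k : ℕ) : alp U (k + 1) ≠ 0 := by
  intro h
  obtain ⟨b0, b1, hb⟩ := (cvr U).eq_sub_of_del _ h
  have key : ∀ {e : ℝ} (he : e * e = 1),
      bet (k + 1) (gsec (T := ptR F) (upull (qq' U hU he).left (tt U))) =
      res (pp U hU 0 e) b0 - res (pp U hU 1 e) b1 := by
    intro e he
    have h1 := congrArg (res (qq' U hU he)) hb
    rw [res_bet, gsec_map] at h1
    rw [h1, res_sub, ← qq'_k0 U hU he, ← qq'_k1 U hU he, res_comp, res_comp]
  have h1 : (1 : ℝ) * 1 = 1 := by norm_num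
  have h2 : (-1 : ℝ) * (-1) = 1 := by norm_num
  have k1 := key h1
  have k2 := key h2
  rw [line_const k _ (aa U 0) inferInstance (pp U hU 0) (pp_aa U hU 0) b0 (-1) 1,
    line_const k _ (aa U 1) inferInstance (pp U hU 1) (pp_aa U hU 1) b1 (-1) 1, ← k1] at k2
  have u1 : upull (qq' U hU h1).left (tt U) = 1 := by
    refine (qq'_tt U hU h1 1 (by simp)).trans ?_
    exact map_one (spu ℝ)
  have u2 : upull (qq' U hU h2).left (tt U) = -1 := by
    refine (qq'_tt U hU h2 (-1) (by simp)).trans ?_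
    apply Units.ext
    change (Scheme.ΓSpecIso (.of ℝ)).inv.hom ((-1 : ℝˣ) : ℝ) = (-1 : Γ(SR, ⊤))
    simp
  rw [u1, u2, gsec_one, bet_zero] at k2
  exact bet_neg_one k k2

end main

end Pool.Agent.W487.G
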