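import Mathlib
import Pool.Agent.W487.G.P1c
import Pool.Agent.W487.G.Curve

open CategoryTheory Limits Opposite AlgebraicGeometry TopologicalSpace Topology

set_option backward.isDefEq.respectTransparency false
set_option linter.unusedSimpArgs false
set_option linter.unusedSectionVars false

noncomputable section

namespace Pool.Agent.W487.G

variable (F : Type) [Field F] [CharZero F]

/-- `X₀² + X₁²` -/
def qf : MvPolynomial (Fin 2) F := MvPolynomial.X 0 ^ 2 + MvPolynomial.X 1 ^ 2

lemma qf_mem : qf F ∈ gr F 2 :=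
  add_mem (MvPolynomial.isHomogeneous_X_pow 0 2) (MvPolynomial.isHomogeneous_X_pow 1 2)

/-- the affine open of the projective line where `X₀² + X₁²` does not vanish -/
def Uq : (P1 F).left.Opens := Proj.basicOpen (gr F) (qf F)

lemma Uq_affine : IsAffineOpen (Uq F) :=
  Proj.isAffineOpen_basicOpen (gr F) (qf F) (qf_mem F) two_pos

variable [Algebra F ℝ]

lemma ptf_range (f : MvPolynomial (Fin 2) F) {d : ℕ} (hf : f ∈ gr F d) (hd : 0 < d)
    (v : Fin 2 → ℝ) (hu : IsUnit (MvPolynomial.aeval v f)) :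
    Set.range (ptf f hf hd v hu) ⊆ (Proj.basicOpen (gr F) f : Set (Proj (gr F))) := by
  have h1 := Proj.opensRange_awayι (gr F) f hf hd
  have h2 : Set.range (Proj.awayι (gr F) f hf hd) =
      (Proj.basicOpen (gr F) f : Set (Proj (gr F))) :=
    congrArg (fun V : (Proj (gr F)).Opens => (V : Set (Proj (gr F)))) h1
  rw [← h2, ptf, Scheme.Hom.comp_base, TopCat.coe_comp]
  exact Set.range_comp_subset_range _ _

lemma hUq (x : ptR F ⟶ P1 F) : Set.range x.left ⊆ (Uq F : Set (P1 F).left) := by
  let xl : SR ⟶ Proj (gr F) := x.left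
  obtain ⟨i, hi⟩ := ch_cover F (xl (default : SR))
  let y : SR ⟶ Spec (.of (Polynomial F)) := IsOpenImmersion.lift (chL F i) xl
    (range_subset_of_unique (X := SR) _ _ hi)
  have hy : y ≫ chL F i = xl := IsOpenImmersion.lift_fac _ _ _
  let φ : Polynomial F →+* ℝ := (Spec.preimage y).hom
  have hφ : Spec.map (CommRingCat.ofHom φ) = y := Spec.map_preimage y
  have hstr : Spec.map (CommRingCat.ofHom φ) ≫
      Spec.map (CommRingCat.ofHom (algebraMap F (Polynomial F))) =
      Spec.map (CommRingCat.ofHom (algebraMap F ℝ)) := by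
    have h1 : chL F i ≫ (P1 F).hom = Spec.map (CommRingCat.ofHom (algebraMap F (Polynomial F))) :=
      ptf_str (MvPolynomial.X i) (X_mem i) one_pos (cv F i) (cv_unit F i)
    rw [← h1, hφ, reassoc_of% hy]
    exact Over.w x
  have hC : ∀ r : F, φ (algebraMap F (Polynomial F) r) = algebraMap F ℝ r := by
    intro r
    rw [← Spec.map_comp, Spec.map_inj] at hstr
    exact congr(($hstr).hom r)
  let g : Polynomial F →ₐ[F] ℝ := { toRingHom := φ, commutes' := hC }
  have hq : MvPolynomial.aeval (fun k => g (cv F i k)) (qf F) = 1 + g Polynomial.X ^ 2 := by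
    fin_cases i <;> simp [qf, cv, add_comm]
  have hqn : 1 + g Polynomial.X ^ 2 ≠ 0 := by positivity
  have hu1 : IsUnit (MvPolynomial.aeval (fun k => g (cv F i k))
      (MvPolynomial.X i : MvPolynomial (Fin 2) F)) := by
    simp [cv]
  have hu2 : IsUnit (MvPolynomial.aeval (fun k => g (cv F i k))
      ((MvPolynomial.X i : MvPolynomial (Fin 2) F) * qf F)) := by
    rw [map_mul, hq]
    exact hu1.mul (isUnit_iff_ne_zero.2 hqn)
  have h1 : xl = ptf (MvPolynomial.X i * qf F)
      (SetLike.mul_mem_graded (X_mem i) (qf_mem F)) (by norm_num) (fun k => g (cv F i k)) hu2 := by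
    rw [← hy, ← hφ, chL, ← ptf_mul (MvPolynomial.X i) (qf F) (X_mem i) one_pos (qf_mem F) rfl _
      hu1 hu2]
    exact ptf_comp g _ _ _ _ (cv_unit F i) hu1
  intro z hz
  have h2 : z ∈ (Proj.basicOpen (gr F) (MvPolynomial.X i * qf F) : Set (Proj (gr F))) := by
    apply ptf_range F _ _ _ _ hu2
    rw [← h1]
    exact hz
  rw [Proj.basicOpen_mul] at h2
  exact h2.2

end Pool.Agent.W487.G
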