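import Mathlib
import Pool.Agent.W487.G.Aff

open CategoryTheory Limits Opposite AlgebraicGeometry TopologicalSpace Topology

set_option backward.isDefEq.respectTransparency false
set_option linter.unusedSimpArgs false
set_option linter.unusedSectionVars false

noncomputable section

namespace Pool.Agent.W487.G

variable (F : Type) [Field F] [CharZero F] [Algebra F ℝ]

/-- the point of the spectrum of `F[X]` given by a real number -/
def ry (c : ℝ) : Spec (.of (Polynomial F)) := (ptA (F := F) c).left (default : SR)

lemma not_specializes : ¬ (ry F 1 ⤳ ry F (-1)) := by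
  intro h
  let a : PrimeSpectrum (Polynomial F) := ry F 1
  let b : PrimeSpectrum (Polynomial F) := ry F (-1)
  have h1 : a ≤ b := (PrimeSpectrum.le_iff_specializes a b).2 h
  have h5 : ((default : SR) : PrimeSpectrum ℝ).asIdeal = ⊥ := PrimeSpectrum.asIdeal_bot
  have h2 : (Polynomial.X - Polynomial.C 1 : Polynomial F) ∈ a.asIdeal := by
    change evR F 1 (Polynomial.X - Polynomial.C 1 : Polynomial F) ∈
      ((default : SR) : PrimeSpectrum ℝ).asIdeal
    rw [h5, Ideal.mem_bot]
    simp [evR]
  have h3 : (Polynomial.X - Polynomial.C 1 : Polynomial F) ∈ b.asIdeal := h1 h2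
  have h4 : evR F (-1) (Polynomial.X - Polynomial.C 1 : Polynomial F) ∈
      ((default : SR) : PrimeSpectrum ℝ).asIdeal := h3
  rw [h5, Ideal.mem_bot] at h4
  simp [evR] at h4
  norm_num at h4

variable {F} (U : (P1 F).left.Opens)
  (hU : ∀ x : ptR F ⟶ P1 F, Set.range x.left ⊆ (U : Set (P1 F).left))

include hU in
lemma real_mem (c : ℝ) : (chL F 0) (ry F c) ∈ U :=
  hU (ptA c ≫ ch F 0) ⟨(default : SR), rfl⟩

include hU in
lemma dim_U : topologicalKrullDim U = 1 := by
  apply le_antisymm
  · exact (topologicalKrullDim_subspace_le _ _).trans (dim_P1 F).le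
  · rw [topologicalKrullDim, Order.one_le_krullDim_iff]
    have : IsIntegral (P1 F).left := integral_P1 F
    have hne : Nonempty U := ⟨⟨_, real_mem U hU 1⟩⟩
    have hint : IsIntegral U := isIntegral_of_isOpenImmersion U.ι
    have hirr : IrreducibleSpace U := inferInstance
    let x1 : U := ⟨_, real_mem U hU 1⟩
    let x2 : U := ⟨_, real_mem U hU (-1)⟩
    let Z1 : IrreducibleCloseds U := ⟨closure {x1}, isIrreducible_singleton.closure, isClosed_closure⟩
    let Z2 : IrreducibleCloseds U := ⟨Set.univ, IrreducibleSpace.isIrreducible_univ U, isClosed_univ⟩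
    refine ⟨Z1, Z2, lt_of_le_of_ne (Set.subset_univ _) (fun h => ?_)⟩
    have h1 : (closure {x1} : Set U) = Set.univ := congrArg (fun Z : IrreducibleCloseds U => (Z : Set U)) h
    have h2 : x1 ⤳ x2 := by
      rw [specializes_iff_mem_closure, h1]
      trivial
    have h3 : (chL F 0) (ry F 1) ⤳ (chL F 0) (ry F (-1)) := h2.map continuous_subtype_val
    exact not_specializes F ((chL F 0).isOpenEmbedding.isInducing.specializes_iff.1 h3)

include hU in
theorem isCurve_U (hc : IsCompact (U : Set (P1 F).left)) : IsCurve (opO (P1 F) U) where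
  integral := by
    have : IsIntegral (P1 F).left := integral_P1 F
    have hne : Nonempty U := ⟨⟨_, real_mem U hU 1⟩⟩
    exact (isIntegral_of_isOpenImmersion U.ι : IsIntegral U)
  separated := by
    have := (isCurve_P1 F).separated
    exact (inferInstance : IsSeparated (U.ι ≫ (P1 F).hom))
  locallyOfFiniteType := by
    have := (isCurve_P1 F).locallyOfFiniteType
    exact (inferInstance : LocallyOfFiniteType (U.ι ≫ (P1 F).hom))
  quasiCompact := by
    have h1 : CompactSpace U := isCompact_iff_compactSpace.1 hc
    exact (HasAffineProperty.iff_of_isAffine (P := @QuasiCompact) (f := U.ι ≫ (P1 F).hom)).2 h1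
  dim := dim_U U hU

end Pool.Agent.W487.G
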