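import Mathlib
import Pool.Agent.W487.G.Aff

open CategoryTheory Limits Opposite Abelian AlgebraicGeometry TopologicalSpace Topology

set_option backward.isDefEq.respectTransparency false
set_option linter.unusedSimpArgs false
set_option linter.unusedSectionVars false

noncomputable section

namespace Pool.Agent.W487.G

/-- `Hⁿ(T, G_m)`, the etale cohomology of a scheme `T` over `S` with coefficients in the
multiplicative group, computed in the abelian sheaves on the big etale site of `S` as
the group of `n`-fold extensions of the free abelian sheaf on `T` by `G_m`. -/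
def HGm {S : Scheme.{0}} (T : Over S) (n : ℕ) : Type 1 := Ext ((ZS S).obj T) (Gm S) n

instance instHGm {S : Scheme.{0}} (T : Over S) (n : ℕ) : AddCommGroup (HGm T n) :=
  Ext.instAddCommGroup

/-- the order of a class in `Hⁿ(T, G_m)` (zero if it is infinite) -/
def ordH {S : Scheme.{0}} {T : Over S} {n : ℕ} (α : HGm T n) : ℕ := addOrderOf α

/-- the spectrum of the residue field of a point `s` of `T`, as a scheme over `S` -/
def ptO {S : Scheme.{0}} (T : Over S) (s : T.left) : Over S :=
  Over.mk (T.left.fromSpecResidueField s ≫ T.hom)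

/-- the morphism `Spec κ(s) → T` -/
def ptI {S : Scheme.{0}} (T : Over S) (s : T.left) : ptO T s ⟶ T :=
  Over.homMk (T.left.fromSpecResidueField s)

/-- the restriction of a class in `Hⁿ(T, G_m)` to the point `s` -/
def resPt {S : Scheme.{0}} {T : Over S} {n : ℕ} (α : HGm T n) (s : T.left) :
    HGm (ptO T s) n := res (ptI T s) α

/-- the closed points of `C` at which the restriction of every member of a family of classes
has the same order as that member. -/
def goodPts {S : Scheme.{0}} {C : Over S} {n m : ℕ} (α : Fin m → HGm C n) : Set C.left :=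
  {s | IsClosed {s} ∧ ∀ i, ordH (resPt (α i) s) = ordH (α i)}

/-- the closed points `s` of `U` with residue field `F`, where `S = Spec F` (that is, such that
`Spec κ(s) → S` is an isomorphism), at which the restriction of the class `α` has the same order
as `α`. -/
def goodRatPts {S : Scheme.{0}} {U : Over S} {n : ℕ} (α : HGm U n) : Set U.left :=
  {s | IsClosed {s} ∧ IsIso (ptO U s).hom ∧ ordH (resPt α s) = ordH α}

/-- there is a class of order two in `Hⁿ(T, G_m)` whose restriction to every point of `T` is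
zero, that is, has order one. -/
def HasDeadClass {S : Scheme.{0}} (T : Over S) (n : ℕ) : Prop :=
  ∃ α : HGm T n, ordH α = 2 ∧ ∀ s : T.left, ordH (resPt α s) = 1

/-- `F` is `n`-Brauertsch: for every curve `C` over `F` and every finite family of classes in
`Hⁿ(C, G_m)` whose orders are invertible in `F` there are infinitely many closed points of `C`
at which the restriction of each class has the same order as the class itself. -/
def IsNBrauertsch (n : ℕ) (F : Type) [Field F] : Prop :=
  ∀ C : Over (Spec (.of F)), IsCurve C → ∀ (m : ℕ) (α : Fin m → HGm C n),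
    (∀ i, (ordH (α i) : F) ≠ 0) → (goodPts α).Infinite

/-- `F` is `n`-Hilbertian: for every nonempty open `U` of the projective line over `F` and every
class in `Hⁿ(U, G_m)` whose order is invertible in `F` there are infinitely many closed points
of `U` with residue field `F` at which the restriction of the class has the same order as the
class itself. -/
def IsNHilbertian (n : ℕ) (F : Type) [Field F] : Prop :=
  ∀ U : (P1 F).left.Opens, (U : Set (P1 F).left).Nonempty →
    ∀ α : HGm (opO (P1 F) U) n, (ordH α : F) ≠ 0 → (goodRatPts α).Infinite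

lemma pt_lift {S : Scheme.{0}} {T V : Over S} (j : V ⟶ T) (hj : IsOpenImmersion j.left)
    (s : T.left) (hs : s ∈ Set.range j.left) : ∃ r : ptO T s ⟶ V, r ≫ j = ptI T s := by
  have h1 : Set.range (T.left.fromSpecResidueField s) ⊆ Set.range j.left := by
    rw [Scheme.range_fromSpecResidueField, Set.singleton_subset_iff]
    exact hs
  have h2 : IsOpenImmersion.lift j.left (T.left.fromSpecResidueField s) h1 ≫ j.left =
      T.left.fromSpecResidueField s := IsOpenImmersion.lift_fac _ _ _
  refine ⟨Over.homMk (IsOpenImmersion.lift j.left (T.left.fromSpecResidueField s) h1) ?_, ?_⟩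
  · rw [← Over.w j, ← Category.assoc, h2]
    rfl
  · apply Over.OverMorphism.ext
    exact h2

lemma resPt_del {S : Scheme.{0}} (D : TwoCover S) (h0 : IsOpenImmersion D.j0.left)
    (h1 : IsOpenImmersion D.j1.left) {A : Sh S} {n : ℕ}
    (c : Ext ((ZS S).obj D.V01) A n) (s : D.X.left) : res (ptI D.X s) (D.del c) = 0 := by
  rcases D.cov s with h | h
  · obtain ⟨r, hr⟩ := pt_lift D.j0 h0 s h
    rw [← hr, res_comp, TwoCover.res_j0_del, res_zero]
  · obtain ⟨r, hr⟩ := pt_lift D.j1 h1 s h
    rw [← hr, res_comp, TwoCover.res_j1_del, res_zero]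

variable {F : Type} [Field F] [CharZero F] (U : (P1 F).left.Opens)

lemma resPt_alp (k : ℕ) (s : (opO (P1 F) U).left) : resPt (n := 1 + 2 * k) (alp U k) s = 0 :=
  resPt_del (cvr U)
    (inferInstanceAs (IsOpenImmersion ((P1 F).left.homOfLE (inf_le_left : U ⊓ Dp F 0 ≤ U))))
    (inferInstanceAs (IsOpenImmersion ((P1 F).left.homOfLE (inf_le_left : U ⊓ Dp F 1 ≤ U)))) _ s

lemma ord_resPt_alp (k : ℕ) (s : (opO (P1 F) U).left) :
    ordH (resPt (n := 1 + 2 * k) (alp U k) s) = 1 := by
  rw [ordH, resPt_alp, addOrderOf_zero]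

lemma two_alp (k : ℕ) : (2 : ℕ) • alp U (k + 1) = 0 := by
  rw [two_nsmul, alp, ← TwoCover.del_add, ← bet_add, bet_two, TwoCover.del_zero]

variable [Algebra F ℝ]

lemma order_alp (k : ℕ) (hU : ∀ x : ptR F ⟶ P1 F, Set.range x.left ⊆ (U : Set (P1 F).left)) :
    ordH (T := opO (P1 F) U) (n := 1 + 2 * (k + 1)) (alp U (k + 1)) = 2 :=
  addOrderOf_eq_prime (two_alp U k) (alp_ne_zero U hU k)

lemma dead_alp {n : ℕ} (hn : Odd n) (h3 : 3 ≤ n)
    (hU : ∀ x : ptR F ⟶ P1 F, Set.range x.left ⊆ (U : Set (P1 F).left)) :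
    HasDeadClass (opO (P1 F) U) n := by
  obtain ⟨k, rfl⟩ : ∃ k, n = 1 + 2 * (k + 1) := by
    obtain ⟨m, hm⟩ := hn
    exact ⟨m - 1, by omega⟩
  exact ⟨alp U (k + 1), order_alp U k hU, ord_resPt_alp U (k + 1)⟩

lemma nonempty_of_real (hU : ∀ x : ptR F ⟶ P1 F, Set.range x.left ⊆ (U : Set (P1 F).left)) :
    (U : Set (P1 F).left).Nonempty :=
  ⟨(ptA 1 ≫ ch F 0).left (default : SR), hU (ptA 1 ≫ ch F 0) ⟨(default : SR), rfl⟩⟩

theorem not_hilbertian (F : Type) [Field F] (φ : F →+* ℝ) {n : ℕ} (hn : Odd n) (h3 : 3 ≤ n) :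
    ¬ IsNHilbertian n F := by
  let _ : Algebra F ℝ := φ.toAlgebra
  have : CharZero F := φ.charZero
  intro h
  have hU : ∀ x : ptR F ⟶ P1 F, Set.range x.left ⊆ ((⊤ : (P1 F).left.Opens) : Set (P1 F).left) :=
    fun x y _ => trivial
  obtain ⟨α, h2, h4⟩ := dead_alp ⊤ hn h3 hU
  have h1 := h ⊤ (nonempty_of_real ⊤ hU) α (by rw [h2]; norm_num)
  refine h1.nonempty.elim ?_
  rintro s ⟨-, -, hs⟩
  rw [h4, h2] at hs
  norm_num at hs

theorem affine_dead (F : Type) [Field F] (φ : F →+* ℝ) {n : ℕ} (hn : Odd n) (h3 : 3 ≤ n) :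
    ∃ U : (P1 F).left.Opens, IsAffineOpen U ∧ HasDeadClass (opO (P1 F) U) n := by
  let _ : Algebra F ℝ := φ.toAlgebra
  have : CharZero F := φ.charZero
  exact ⟨Uq F, Uq_affine F, dead_alp (Uq F) hn h3 (hUq F)⟩

end Pool.Agent.W487.G
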