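import Mathlib
import Pool.Agent.W487.G.Hilb
import Pool.Agent.W487.G.AffCurve

open CategoryTheory Limits Opposite Abelian AlgebraicGeometry TopologicalSpace Topology

set_option backward.isDefEq.respectTransparency false
set_option linter.unusedSimpArgs false
set_option linter.unusedSectionVars false

noncomputable section

namespace Pool.Agent.W487.G

theorem curve_dead (F : Type) [Field F] (φ : F →+* ℝ) {n : ℕ} (hn : Odd n) (h3 : 3 ≤ n) :
    ∃ C : Over (Spec (.of F)), IsCurve C ∧ IsAffine C.left ∧ HasDeadClass C n := by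
  let _ : Algebra F ℝ := φ.toAlgebra
  have : CharZero F := φ.charZero
  exact ⟨opO (P1 F) (Uq F), isCurve_U (Uq F) (hUq F) (Uq_affine F).isCompact, Uq_affine F,
    dead_alp (Uq F) hn h3 (hUq F)⟩

theorem not_brauertsch (F : Type) [Field F] (φ : F →+* ℝ) {n : ℕ} (hn : Odd n) (h3 : 3 ≤ n) :
    ¬ IsNBrauertsch n F := by
  intro h
  have : CharZero F := φ.charZero
  obtain ⟨C, hC, -, α, h2, h4⟩ := curve_dead F φ hn h3
  have h1 := h C hC 1 (fun _ => α) (fun _ => by
    rw [h2]; norm_num)
  refine h1.nonempty.elim ?_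
  rintro s ⟨-, hs⟩
  have h5 := hs 0
  rw [h4, h2] at h5
  norm_num at h5

end Pool.Agent.W487.G
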