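import Mathlib

open Cardinal

set_option linter.unusedSectionVars false

noncomputable section

namespace Pool.Agent.W487.G

theorem trdegQ_real : ℵ₀ ≤ Algebra.trdeg ℚ ℝ := by
  obtain ⟨s, hs⟩ := exists_isTranscendenceBasis ℚ ℝ
  rw [← hs.cardinalMk_eq_trdeg]
  by_contra h
  rw [not_le] at h
  have halg : Algebra.IsAlgebraic (Algebra.adjoin ℚ (Set.range ((↑) : s → ℝ))) ℝ := hs.isAlgebraic
  have h1 : #ℝ ≤ max #(Algebra.adjoin ℚ (Set.range ((↑) : s → ℝ))) ℵ₀ :=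
    Algebra.IsAlgebraic.cardinalMk_le_max _ _
  have h2 : #(Algebra.adjoin ℚ (Set.range ((↑) : s → ℝ))) = #(MvPolynomial s ℚ) :=
    (Cardinal.mk_congr hs.1.aevalEquiv.toEquiv).symm
  have h3 : #(MvPolynomial s ℚ) ≤ max (max #ℚ #s) ℵ₀ := MvPolynomial.cardinalMk_le_max
  have h5 : #ℚ ≤ ℵ₀ := Cardinal.mk_le_aleph0
  rw [h2] at h1
  have h4 : #ℝ ≤ ℵ₀ := h1.trans (max_le (h3.trans (max_le (max_le h5 h.le) le_rfl)) le_rfl)
  rw [Cardinal.mk_real] at h4
  exact absurd h4 (not_le.2 Cardinal.aleph0_lt_continuum)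

theorem exists_indep (m : ℕ) : ∃ x : Fin m → ℝ, AlgebraicIndependent ℚ x := by
  obtain ⟨s, hs⟩ := exists_isTranscendenceBasis ℚ ℝ
  have h : ℵ₀ ≤ #s := by
    rw [hs.cardinalMk_eq_trdeg]
    exact trdegQ_real
  have hinf : Infinite s := Cardinal.infinite_iff.2 h
  let f : Fin m ↪ s := (Fin.valEmbedding).trans (Infinite.natEmbedding s)
  exact ⟨fun i => (f i : ℝ), hs.1.comp f f.injective⟩

/-- the field `ℚ(x₁, …, x_m)` -/
abbrev Qx (m : ℕ) : Type := FractionRing (MvPolynomial (Fin m) ℚ)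

theorem Qx_real (m : ℕ) : Nonempty (Qx m →+* ℝ) := by
  obtain ⟨x, hx⟩ := exists_indep m
  exact ⟨IsFractionRing.lift (A := MvPolynomial (Fin m) ℚ) (K := Qx m)
    (g := (MvPolynomial.aeval x : MvPolynomial (Fin m) ℚ →ₐ[ℚ] ℝ).toRingHom) hx⟩

theorem Qx_trdeg (m : ℕ) : Algebra.trdeg ℚ (Qx m) = m := by
  have h1 : Algebra.trdeg ℚ (MvPolynomial (Fin m) ℚ) = m := by
    rw [MvPolynomial.trdeg_of_isDomain]
    simp
  have h2 : Algebra.IsAlgebraic (MvPolynomial (Fin m) ℚ) (Qx m) :=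
    IsLocalization.isAlgebraic _ (nonZeroDivisors (MvPolynomial (Fin m) ℚ))
  have h3 : Algebra.trdeg (MvPolynomial (Fin m) ℚ) (Qx m) = 0 := trdeg_eq_zero
  rw [← _root_.trdeg_add_eq ℚ (MvPolynomial (Fin m) ℚ) (A := Qx m), h1, h3, add_zero]

theorem Qx_fg (m : ℕ) : Algebra.EssFiniteType ℚ (Qx m) := by
  have h1 : Algebra.EssFiniteType (MvPolynomial (Fin m) ℚ) (Qx m) :=
    Algebra.EssFiniteType.of_isLocalization _ (nonZeroDivisors (MvPolynomial (Fin m) ℚ))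
  exact Algebra.EssFiniteType.comp ℚ (MvPolynomial (Fin m) ℚ) (Qx m)

theorem exists_fg (m : ℕ) : ∃ (F : Type) (_ : Field F) (k : Subfield F),
    PerfectField k ∧ (⊤ : IntermediateField k F).FG ∧ Algebra.trdeg k F = m ∧
      Nonempty (F →+* ℝ) := by
  let k : Subfield (Qx m) := (algebraMap ℚ (Qx m)).fieldRange
  have hk : Algebra.IsAlgebraic ℚ k := by
    refine ⟨fun x => ?_⟩
    obtain ⟨q, hq⟩ := x.2
    have : x = algebraMap ℚ k q := by
      apply Subtype.ext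
      rw [← hq]
      rfl
    rw [this]
    exact isAlgebraic_algebraMap q
  have h1 : Algebra.trdeg ℚ k = 0 := trdeg_eq_zero
  have h2 := _root_.trdeg_add_eq ℚ k (A := Qx m)
  rw [h1, zero_add, Qx_trdeg] at h2
  have := Qx_fg m
  have h3 : Algebra.EssFiniteType k (Qx m) := Algebra.EssFiniteType.of_comp ℚ k (Qx m)
  exact ⟨Qx m, inferInstance, k, inferInstance, IntermediateField.fg_top_iff.2 h3, h2, Qx_real m⟩

end Pool.Agent.W487.G
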